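import Pool.Agent.H565R2.CO.Mea

set_option autoImplicit false

/-!
Existence of the configuration.
-/

namespace Pool.Agent.H565R2.CO

open FirstOrder Set Topology MeasureTheory Matrix
open Pool.Agent.H565R2.FO2 (pick pick_false pick_true pick_self pick_pick Interp bool_fun_cases
  Code toI ofI toI_ofI Iso meas_toI)
open Pool.Agent.H565R2.LO2 (rho SPO vec_pick rho_iso iso_symm PerfK perfK_of_inv meas_rho meas_SPO)

variable {L : FirstOrder.Language.{0, 0}}

theorem encard_biUnion_le' {F : ℕ → Set ℕ} {B : ℕ} {A : Set ℕ} (hA : A.Finite)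
    (h : ∀ z ∈ A, (F z).encard ≤ (B : ℕ∞)) : (⋃ z ∈ A, F z).encard ≤ A.encard * B := by
  induction A, hA using Set.Finite.induction_on with
  | empty => simp
  | @insert a s ha hs ih =>
    rw [Set.biUnion_insert, Set.encard_insert_of_notMem ha, add_mul, one_mul, add_comm]
    refine (Set.encard_union_le _ _).trans ?_
    exact add_le_add (h a (Set.mem_insert _ _))
      (ih fun z hz => h z (Set.mem_insert_of_mem _ hz))

theorem bd_union {α β : Type*} {F : Set β} (hF : F.Finite) (A : α → β → Set ℕ)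
    (h : ∀ d ∈ F, ∃ k : ℕ, ∀ x, (A x d).encard ≤ (k : ℕ∞)) :
    ∃ C : ℕ, ∀ x, (⋃ d ∈ F, A x d).encard ≤ (C : ℕ∞) := by
  induction F, hF using Set.Finite.induction_on with
  | empty => exact ⟨0, fun x => by simp⟩
  | @insert a s ha hs ih =>
    obtain ⟨C, hC⟩ := ih fun d hd => h d (Set.mem_insert_of_mem _ hd)
    obtain ⟨k, hk⟩ := h a (Set.mem_insert _ _)
    refine ⟨k + C, fun x => ?_⟩
    rw [Set.biUnion_insert]
    refine (Set.encard_union_le _ _).trans ?_
    push_cast
    exact add_le_add (hk x) (hC x)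

/-- `x` depends on `y`. -/
def Arr (Φ : C2 L) (I : Interp L ℕ) (x y : ℕ) : Prop :=
  x ≠ y ∧ ¬ Free Φ (dat I (subs Φ) x y)

/-- Paths with given data. -/
def Via (Φ : C2 L) (I : Interp L ℕ) : List (Dat L) → ℕ → ℕ → Prop
  | [], x, a => x = a
  | d :: ds, x, a => ∃ z, dat I (subs Φ) x z = d ∧ Via Φ I ds z a

theorem via_of {Φ : C2 L} {I : Interp L ℕ} {x a : ℕ} (h : Relation.ReflTransGen (Arr Φ I) x a) :
    ∃ ds : List (Dat L), (∀ d ∈ ds, ¬ Free Φ d) ∧ Via Φ I ds x a := by
  induction h using Relation.ReflTransGen.head_induction_on with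
  | refl => exact ⟨[], by simp, rfl⟩
  | @head x z hxz _ ih =>
    obtain ⟨ds, h1, h2⟩ := ih
    refine ⟨dat I (subs Φ) x z :: ds, ?_, z, rfl, h2⟩
    intro d hd
    rcases List.mem_cons.1 hd with h3 | h3
    · rw [h3]; exact hxz.2
    · exact h1 d h3

theorem out_bd (Φ : C2 L) (I : Interp L ℕ) {d : Dat L} (hd : ¬ Free Φ d) :
    ∃ k : ℕ, ∀ x, {z | dat I (subs Φ) x z = d}.encard ≤ (k : ℕ∞) := by
  unfold Free at hd
  push Not at hd
  obtain ⟨c, ψ, hψ, hev, hne⟩ := hd
  have hs : subs ψ ⊆ subs Φ := subs_trans hψ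
  refine ⟨(d.l false c ψ).toNat, fun x => ?_⟩
  rw [ENat.natCast_toNat hne]
  by_cases hem : ∃ z, dat I (subs Φ) x z = d
  · obtain ⟨z0, hz0⟩ := hem
    have hl : d.l false c ψ = lab I (subs Φ) x c ψ := by rw [← hz0]; rfl
    rw [hl]
    unfold lab
    rw [if_pos hψ]
    cases c
    · simp only [cond_false]
      apply Set.encard_le_encard
      intro z hz
      have hz' : dat I (subs Φ) x z = d := hz
      simp only [cond_false] at hev
      rw [← hz', dat_not, ev_dat _ _ _ hs] at hev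
      exact hev
    · simp only [cond_true]
      apply Set.encard_le_encard
      intro z hz
      have hz' : dat I (subs Φ) x z = d := hz
      simp only [cond_true] at hev
      rw [← hz', ev_dat _ _ _ hs] at hev
      exact hev
  · have : {z | dat I (subs Φ) x z = d} = ∅ := by
      ext z
      simp only [Set.mem_ofPred_eq, Set.mem_empty_iff_false, iff_false]
      exact fun h => hem ⟨z, h⟩
    rw [this]
    simp

theorem via_bd (Φ : C2 L) (I : Interp L ℕ) (ds : List (Dat L)) (h : ∀ d ∈ ds, ¬ Free Φ d) :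
    ∃ B : ℕ, ∀ x, {a | Via Φ I ds x a}.encard ≤ (B : ℕ∞) := by
  induction ds with
  | nil =>
    refine ⟨1, fun x => ?_⟩
    have : {a | Via Φ I [] x a} = {x} := by
      ext a
      simp only [Via, Set.mem_ofPred_eq, Set.mem_singleton_iff]
      exact eq_comm
    rw [this, Set.encard_singleton]
    rfl
  | cons d ds ih =>
    obtain ⟨B, hB⟩ := ih fun d' hd' => h d' (List.mem_cons_of_mem _ hd')
    obtain ⟨k, hk⟩ := out_bd Φ I (h d List.mem_cons_self)
    refine ⟨k * B, fun x => ?_⟩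
    have : {a | Via Φ I (d :: ds) x a} =
        ⋃ z ∈ {z | dat I (subs Φ) x z = d}, {a | Via Φ I ds z a} := by
      ext a
      simp [Via]
    rw [this]
    have hf : {z | dat I (subs Φ) x z = d}.Finite :=
      Set.finite_of_encard_le_coe (hk x)
    refine (encard_biUnion_le' hf fun z _ => hB z).trans ?_
    push_cast
    gcongr
    exact hk x

theorem ends_a (h3 : ∀ n, 2 < n → IsEmpty (L.Relations n)) {d d' : Dat L}
    (h0 : d.map (fun _ => false) = d'.map (fun _ => false))
    (h1 : d.map (fun _ => true) = d'.map (fun _ => true)) (he : d.e ↔ d'.e)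
    (h2 : d.a 2 = d'.a 2) : d = d' := by
  have hb : ∀ b : Bool, d.map (fun _ => b) = d'.map (fun _ => b) := by
    intro b; cases b <;> assumption
  apply Dat.ext'
  · exact he
  · intro n R v
    rcases Nat.lt_or_ge 2 n with hn | hn
    · exact ((h3 n hn).false R).elim
    · interval_cases n
      · have e : v = fun k => (fun _ => false : Bool → Bool) (v k) := Subsingleton.elim _ _
        have h4 : ((d.map (fun _ => false)).a 0 R v) ↔ ((d'.map (fun _ => false)).a 0 R v) := by
          rw [h0]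
        have h5 : d.a 0 R (fun k => (fun _ => false : Bool → Bool) (v k)) ↔
            d'.a 0 R (fun k => (fun _ => false : Bool → Bool) (v k)) := h4
        rw [← e] at h5
        exact h5
      · have e : v = fun k => (fun _ => v 0 : Bool → Bool) (v k) := by
          funext k
          rw [Subsingleton.elim k 0]
        have h4 : ((d.map (fun _ => v 0)).a 1 R v) ↔ ((d'.map (fun _ => v 0)).a 1 R v) := by
          rw [hb]
        have h5 : d.a 1 R (fun k => (fun _ => v 0 : Bool → Bool) (v k)) ↔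
            d'.a 1 R (fun k => (fun _ => v 0 : Bool → Bool) (v k)) := h4
        rw [← e] at h5
        exact h5
      · rw [h2]
  · intro b c ψ
    have h4 : (d.map (fun _ => b)).l false c ψ = (d'.map (fun _ => b)).l false c ψ := by
      rw [hb]
    exact h4

theorem arr_bd [Finite (L.Relations 2)] (h3 : ∀ n, 2 < n → IsEmpty (L.Relations n))
    (Φ : C2 L) (I : Interp L ℕ) (p q : Dat L) :
    ∃ C : ℕ, ∀ x, {z | Arr Φ I x z ∧ dat I (subs Φ) x x = p ∧ dat I (subs Φ) z z = q}.encard ≤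
      (C : ℕ∞) := by
  let F : Set (Dat L) := {d | ¬ Free Φ d ∧ d.map (fun _ => false) = p ∧
    d.map (fun _ => true) = q}
  have hF : F.Finite := by
    have hinj : Set.InjOn (fun d : Dat L => (d.e, d.a 2)) F := by
      intro d hd d' hd' h
      simp only [Prod.mk.injEq] at h
      exact ends_a h3 (hd.2.1.trans hd'.2.1.symm) (hd.2.2.trans hd'.2.2.symm)
        (by rw [h.1]) h.2
    have hfin : Finite (Prop × (L.Relations 2 → (Fin 2 → Bool) → Prop)) := inferInstance
    exact Set.Finite.of_finite_image (Set.toFinite _) hinj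
  obtain ⟨C, hC⟩ := bd_union hF (fun x d => {z | dat I (subs Φ) x z = d})
    (fun d hd => out_bd Φ I hd.1)
  refine ⟨C, fun x => (Set.encard_le_encard ?_).trans (hC x)⟩
  rintro z ⟨h1, h2, h4⟩
  simp only [Set.mem_iUnion]
  exact ⟨dat I (subs Φ) x z, ⟨h1.2, by rw [dat_f]; exact h2, by rw [dat_t]; exact h4⟩, rfl⟩

theorem via_pres {Φ : C2 L} {I I' : Interp L ℕ} (ds : List (Dat L)) {n : ℕ}
    (hn : ds.length ≤ n) {x a x' a' : ℕ} (h : BF Φ n I ![x, a] I' ![x', a'])
    (hv : Via Φ I ds x a) : Via Φ I' ds x' a' := by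
  induction ds generalizing n x x' with
  | nil =>
    have h0 := h.mono (Nat.zero_le n) 0 1
    have hv' : x = a := hv
    have : (dat I' (subs Φ) x' a').e := by
      have h1 : dat I (subs Φ) x a = dat I' (subs Φ) x' a' := h0
      rw [← h1]
      exact hv'
    exact this
  | cons d ds ih =>
    obtain ⟨z, hz, hv⟩ := hv
    simp only [List.length_cons] at hn
    obtain ⟨m, rfl⟩ : ∃ m, n = m + 1 := ⟨n - 1, by omega⟩
    obtain ⟨z', hz'⟩ := h.1 z
    refine ⟨z', ?_, ?_⟩
    · have h0 := hz'.mono (Nat.zero_le m) 1 0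
      have h1 : dat I (subs Φ) x z = dat I' (subs Φ) x' z' := h0
      rw [← h1]
      exact hz
    · refine ih (n := m) (by omega) (x := z) (x' := z') ?_ hv
      have h2 := hz'.map ![(0 : Fin 3), 2]
      have e : ∀ u v w : ℕ, (![u, v, w] ∘ ![(0 : Fin 3), 2] : Fin 2 → ℕ) = ![u, w] := by
        intro u v w
        funext i
        fin_cases i <;> rfl
      rw [e, e] at h2
      exact h2

/-- chains of equivalent elements -/
def Ch (Φ : C2 L) (R0 : L.Relations 2) (I : Interp L ℕ) : ℕ → ℕ → ℕ → Prop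
  | 0, _, _ => True
  | k + 1, m, z => ∃ w, rho I R0 z w ∧ BF Φ m I ![z] I ![w] ∧ Ch Φ R0 I k m w

theorem ch_pres {Φ : C2 L} {R0 : L.Relations 2} {I : Interp L ℕ} (k m : ℕ) {z z' : ℕ}
    (h : BF Φ (m + k) I ![z] I ![z']) (hc : Ch Φ R0 I k m z) : Ch Φ R0 I k m z' := by
  induction k generalizing z z' with
  | zero => trivial
  | succ k ih =>
    obtain ⟨w, h1, h2, h3⟩ := hc
    obtain ⟨w', hw'⟩ := h.1 w
    have e1 : ∀ u v : ℕ, (![u, v] ∘ ![(0 : Fin 2)] : Fin 1 → ℕ) = ![u] := by
      intro u v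
      funext i
      fin_cases i; rfl
    have e2 : ∀ u v : ℕ, (![u, v] ∘ ![(1 : Fin 2)] : Fin 1 → ℕ) = ![v] := by
      intro u v
      funext i
      fin_cases i; rfl
    have hw2 := hw'.map ![(0 : Fin 2)]
    rw [e1, e1] at hw2
    refine ⟨w', ?_, ?_, ih hw2 h3⟩
    · have h0 := hw'.mono (Nat.zero_le _) 1 0
      have h4 : dat I (subs Φ) z w = dat I (subs Φ) z' w' := h0
      rw [rho_dat I (subs Φ)] at h1 ⊢
      rw [← h4]
      exact h1
    · exact ((h.mono (by omega : m ≤ m + (k + 1))).symm.trans h2).trans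
        (hw2.mono (by omega : m ≤ m + k))

theorem ch_all {Φ : C2 L} {R0 : L.Relations 2} {I : Interp L ℕ} {a b : ℕ}
    (hab : rho I R0 a b) (h : ∀ n, BF Φ n I ![a] I ![b]) (k m : ℕ) : Ch Φ R0 I k m a := by
  induction k with
  | zero => trivial
  | succ k ih => exact ⟨b, hab, h m, ch_pres k m (h (m + k)) ih⟩

theorem ch_set {Φ : C2 L} {R0 : L.Relations 2} {I : Interp L ℕ} (hO : SPO (rho I R0))
    (k m : ℕ) {z : ℕ} (hc : Ch Φ R0 I k m z) :
    ∃ s : Finset ℕ, s.card = k ∧ ∀ w ∈ s, rho I R0 z w ∧ BF Φ m I ![z] I ![w] := by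
  classical
  induction k generalizing z with
  | zero => exact ⟨∅, rfl, by simp⟩
  | succ k ih =>
    obtain ⟨w, h1, h2, h3⟩ := hc
    obtain ⟨s, hs1, hs2⟩ := ih h3
    have hw : w ∉ s := fun h => hO.1 w (hs2 w h).1
    refine ⟨insert w s, by rw [Finset.card_insert_of_notMem hw, hs1], fun v hv => ?_⟩
    rcases Finset.mem_insert.1 hv with rfl | hv
    · exact ⟨h1, h2⟩
    · exact ⟨hO.2 _ _ _ h1 (hs2 v hv).1, h2.trans (hs2 v hv).2⟩

theorem pigeon (s : Finset ℕ) (E : ℕ → ℕ → Prop) [∀ i, DecidablePred (E i)] (D : ℕ)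
    (hE : ∀ i ∈ s, (s.filter (fun j => E i j)).card ≤ D) (hs : 2 * D + 1 < s.card) :
    ∃ i ∈ s, ∃ j ∈ s, i ≠ j ∧ ¬ E i j ∧ ¬ E j i := by
  classical
  by_contra hc
  push Not at hc
  have h1 : s.offDiag ⊆ (s.sigma (fun i => s.filter (fun j => E i j))).image
      (fun p => (p.1, p.2)) ∪ (s.sigma (fun i => s.filter (fun j => E i j))).image
      (fun p => (p.2, p.1)) := by
    rintro ⟨i, j⟩ hij
    rw [Finset.mem_offDiag] at hij
    obtain ⟨hi, hj, hne⟩ := hij
    rw [Finset.mem_union]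
    by_cases h : E i j
    · left
      rw [Finset.mem_image]
      exact ⟨⟨i, j⟩, by rw [Finset.mem_sigma, Finset.mem_filter]; exact ⟨hi, hj, h⟩, rfl⟩
    · right
      rw [Finset.mem_image]
      exact ⟨⟨j, i⟩, by
        rw [Finset.mem_sigma, Finset.mem_filter]
        exact ⟨hj, hi, hc i hi j hj hne h⟩, rfl⟩
  have h2 := (Finset.card_le_card h1).trans (Finset.card_union_le _ _)
  have h3 : (s.sigma (fun i => s.filter (fun j => E i j))).card ≤ s.card * D := by
    rw [Finset.card_sigma]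
    exact Finset.sum_le_card_nsmul _ _ _ hE
  have h4 := h2.trans (add_le_add (Finset.card_image_le.trans h3)
    (Finset.card_image_le.trans h3))
  rw [Finset.offDiag_card] at h4
  have h5 : s.card * s.card - s.card = s.card * (s.card - 1) := by
    rw [Nat.mul_sub, Nat.mul_one]
  rw [h5, ← mul_add] at h4
  have h6 := Nat.le_of_mul_le_mul_left h4 (by omega)
  omega

theorem filter_card_le (s : Finset ℕ) (P : ℕ → Prop) [DecidablePred P] {B : ℕ}
    (h : {j | P j}.encard ≤ (B : ℕ∞)) : (s.filter P).card ≤ B := by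
  have h1 : ((s.filter P : Finset ℕ) : Set ℕ).encard ≤ (B : ℕ∞) := by
    refine (Set.encard_le_encard ?_).trans h
    intro j hj
    simp only [Finset.coe_filter, Set.mem_ofPred_eq] at hj
    exact hj.2
  rw [Set.encard_coe_eq_coe_finsetCard] at h1
  exact_mod_cast h1

/-- The data needed for the substitution. -/
theorem exists_X [Finite (L.Relations 2)] (h3 : ∀ n, 2 < n → IsEmpty (L.Relations n))
    {Φ : C2 L} {R0 : L.Relations 2} {I : Interp L ℕ} (hI : I ∈ Md Φ) (hO : SLO (rho I R0))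
    {a b : ℕ} (hab : rho I R0 a b) (hbf : ∀ n, BF Φ n I ![a] I ![b]) {x y : ℕ}
    (hx : Relation.ReflTransGen (Arr Φ I) x a) (hy : Relation.ReflTransGen (Arr Φ I) y a)
    (hxy : x = y ∨ rho I R0 x y) :
    ∃ d : Dat L, d ∈ Al Φ ∧ II Φ d ∧ ¬ d.e ∧
      d.map (fun _ => false) = dat I (subs Φ) x x ∧
      d.map (fun _ => true) = dat I (subs Φ) y y ∧
      d.a 2 R0 ![false, true] ∧ ¬ d.a 2 R0 ![true, false] := by
  classical
  obtain ⟨ds, hds, hvx⟩ := via_of hx
  obtain ⟨ds', hds', hvy⟩ := via_of hy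
  obtain ⟨B, hB⟩ := via_bd Φ I ds hds
  obtain ⟨B', hB'⟩ := via_bd Φ I ds' hds'
  obtain ⟨C1, hC1⟩ := arr_bd h3 Φ I (dat I (subs Φ) x x) (dat I (subs Φ) y y)
  obtain ⟨C2, hC2⟩ := arr_bd h3 Φ I (dat I (subs Φ) y y) (dat I (subs Φ) x x)
  let D : ℕ := B' + (C1 * B' + C2 * B)
  let m : ℕ := ds.length + ds'.length
  obtain ⟨s, hs1, hs2⟩ := ch_set hO.1 (2 * D + 2) (m + 2) (ch_all hab hbf (2 * D + 2) (m + 2))
  have hex : ∀ w ∈ s, ∃ x' y', BF Φ m I ![y, x, a] I ![y', x', w] := by
    intro w hw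
    obtain ⟨x', hx'⟩ := (hs2 w hw).2.1 x
    obtain ⟨y', hy'⟩ := hx'.1 y
    exact ⟨x', y', hy'⟩
  have hex2 : ∀ w, ∃ x' y', w ∈ s → BF Φ m I ![y, x, a] I ![y', x', w] := by
    intro w
    by_cases hw : w ∈ s
    · obtain ⟨x', y', h⟩ := hex w hw
      exact ⟨x', y', fun _ => h⟩
    · exact ⟨0, 0, fun h => absurd h hw⟩
  choose xf yf hf using hex2
  have hVx : ∀ w ∈ s, Via Φ I ds (xf w) w := by
    intro w hw
    have h2 := (hf w hw).map ![(1 : Fin 3), 2]
    have e : ∀ u v w : ℕ, (![u, v, w] ∘ ![(1 : Fin 3), 2] : Fin 2 → ℕ) = ![v, w] := by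
      intro u v w
      funext i
      fin_cases i <;> rfl
    rw [e, e] at h2
    exact via_pres ds (by omega) h2 hvx
  have hVy : ∀ w ∈ s, Via Φ I ds' (yf w) w := by
    intro w hw
    have h2 := (hf w hw).map ![(0 : Fin 3), 2]
    have e : ∀ u v w : ℕ, (![u, v, w] ∘ ![(0 : Fin 3), 2] : Fin 2 → ℕ) = ![u, w] := by
      intro u v w
      funext i
      fin_cases i <;> rfl
    rw [e, e] at h2
    exact via_pres ds' (by omega) h2 hvy
  have hxx : ∀ w ∈ s, dat I (subs Φ) x x = dat I (subs Φ) (xf w) (xf w) := fun w hw =>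
    (hf w hw).mono (Nat.zero_le _) 1 1
  have hyy : ∀ w ∈ s, dat I (subs Φ) y y = dat I (subs Φ) (yf w) (yf w) := fun w hw =>
    (hf w hw).mono (Nat.zero_le _) 0 0
  have hxy' : ∀ w ∈ s, dat I (subs Φ) x y = dat I (subs Φ) (xf w) (yf w) := fun w hw =>
    (hf w hw).mono (Nat.zero_le _) 1 0
  have hle : ∀ w ∈ s, xf w = yf w ∨ rho I R0 (xf w) (yf w) := by
    intro w hw
    rcases hxy with h | h
    · left
      have : (dat I (subs Φ) (xf w) (yf w)).e := by
        rw [← hxy' w hw]; exact h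
      exact this
    · right
      rw [rho_dat I (subs Φ)] at h ⊢
      rw [← hxy' w hw]; exact h
  let E : ℕ → ℕ → Prop := fun i j =>
    xf i = yf j ∨ Arr Φ I (xf i) (yf j) ∨ Arr Φ I (yf i) (xf j)
  have hE : ∀ i ∈ s, (s.filter (fun j => E i j)).card ≤ D := by
    intro i hi
    have h1 : s.filter (fun j => E i j) ⊆ s.filter (fun j => j ∈ s ∧ xf i = yf j) ∪
        (s.filter (fun j => j ∈ s ∧ Arr Φ I (xf i) (yf j)) ∪
        s.filter (fun j => j ∈ s ∧ Arr Φ I (yf i) (xf j))) := by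
      intro j hj
      rw [Finset.mem_filter] at hj
      rw [Finset.mem_union, Finset.mem_union, Finset.mem_filter, Finset.mem_filter,
        Finset.mem_filter]
      rcases hj.2 with h | h | h
      · exact Or.inl ⟨hj.1, hj.1, h⟩
      · exact Or.inr (Or.inl ⟨hj.1, hj.1, h⟩)
      · exact Or.inr (Or.inr ⟨hj.1, hj.1, h⟩)
    have b1 : (s.filter (fun j => j ∈ s ∧ xf i = yf j)).card ≤ B' := by
      apply filter_card_le
      refine (Set.encard_le_encard ?_).trans (hB' (xf i))
      rintro j ⟨hj, h⟩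
      have := hVy j hj
      rw [← h] at this
      exact this
    have b2 : (s.filter (fun j => j ∈ s ∧ Arr Φ I (xf i) (yf j))).card ≤ C1 * B' := by
      apply filter_card_le
      have hfin : {z | Arr Φ I (xf i) z ∧ dat I (subs Φ) (xf i) (xf i) = dat I (subs Φ) x x ∧
          dat I (subs Φ) z z = dat I (subs Φ) y y}.Finite :=
        Set.finite_of_encard_le_coe (hC1 (xf i))
      have hsub : {j | j ∈ s ∧ Arr Φ I (xf i) (yf j)} ⊆ ⋃ z ∈ {z | Arr Φ I (xf i) z ∧
          dat I (subs Φ) (xf i) (xf i) = dat I (subs Φ) x x ∧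
          dat I (subs Φ) z z = dat I (subs Φ) y y}, {j | Via Φ I ds' z j} := by
        rintro j ⟨hj, h⟩
        simp only [Set.mem_iUnion]
        exact ⟨yf j, ⟨h, (hxx i hi).symm, (hyy j hj).symm⟩, hVy j hj⟩
      refine (Set.encard_le_encard hsub).trans ?_
      refine (encard_biUnion_le' hfin fun z _ => hB' z).trans ?_
      push_cast
      gcongr
      exact hC1 (xf i)
    have b3 : (s.filter (fun j => j ∈ s ∧ Arr Φ I (yf i) (xf j))).card ≤ C2 * B := by
      apply filter_card_le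
      have hfin : {z | Arr Φ I (yf i) z ∧ dat I (subs Φ) (yf i) (yf i) = dat I (subs Φ) y y ∧
          dat I (subs Φ) z z = dat I (subs Φ) x x}.Finite :=
        Set.finite_of_encard_le_coe (hC2 (yf i))
      have hsub : {j | j ∈ s ∧ Arr Φ I (yf i) (xf j)} ⊆ ⋃ z ∈ {z | Arr Φ I (yf i) z ∧
          dat I (subs Φ) (yf i) (yf i) = dat I (subs Φ) y y ∧
          dat I (subs Φ) z z = dat I (subs Φ) x x}, {j | Via Φ I ds z j} := by
        rintro j ⟨hj, h⟩
        simp only [Set.mem_iUnion]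
        exact ⟨xf j, ⟨h, (hyy i hi).symm, (hxx j hj).symm⟩, hVx j hj⟩
      refine (Set.encard_le_encard hsub).trans ?_
      refine (encard_biUnion_le' hfin fun z _ => hB z).trans ?_
      push_cast
      gcongr
      exact hC2 (yf i)
    refine (Finset.card_le_card h1).trans ((Finset.card_union_le _ _).trans ?_)
    refine add_le_add b1 ((Finset.card_union_le _ _).trans ?_)
    exact add_le_add b2 b3
  obtain ⟨i, hi, j, hj, hne, hij, hji⟩ := pigeon s E D hE (by omega)
  -- the chosen pair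
  have fin : ∀ i ∈ s, ∀ j ∈ s, ¬ E i j → ¬ E j i → rho I R0 (xf i) (yf j) →
      ∃ d : Dat L, d ∈ Al Φ ∧ II Φ d ∧ ¬ d.e ∧
      d.map (fun _ => false) = dat I (subs Φ) x x ∧
      d.map (fun _ => true) = dat I (subs Φ) y y ∧
      d.a 2 R0 ![false, true] ∧ ¬ d.a 2 R0 ![true, false] := by
    intro i hi j hj hij hji hr
    have hne' : xf i ≠ yf j := fun h => hij (Or.inl h)
    refine ⟨dat I (subs Φ) (xf i) (yf j), al_dat hI _ _, ⟨?_, ?_⟩, hne', ?_, ?_, ?_, ?_⟩
    · by_contra hfr
      exact hij (Or.inr (Or.inl ⟨hne', hfr⟩))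
    · rw [dat_not]
      by_contra hfr
      exact hji (Or.inr (Or.inr ⟨Ne.symm hne', hfr⟩))
    · rw [dat_f]; exact (hxx i hi).symm
    · rw [dat_t]; exact (hyy j hj).symm
    · exact (rho_dat I (subs Φ) R0 _ _).1 hr
    · intro h
      have h5 : rho I R0 (yf j) (xf i) := by
        unfold rho
        have e : (![yf j, xf i] : Fin 2 → ℕ) =
            fun k => pick (xf i) (yf j) (![true, false] k) := by
          funext k; fin_cases k <;> rfl
        rw [e]
        exact h
      exact hO.1.1 _ (hO.1.2 _ _ _ hr h5)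
  have hne1 : xf i ≠ yf j := fun h => hij (Or.inl h)
  rcases hO.2 _ _ hne1 with h | h
  · exact fin i hi j hj hij hji h
  · refine fin j hj i hi hji hij ?_
    have h6 : rho I R0 (yf j) (yf i) := by
      rcases hle i hi with h7 | h7
      · rw [← h7]; exact h
      · exact hO.1.2 _ _ _ h h7
    rcases hle j hj with h7 | h7
    · rw [h7]; exact h6
    · exact hO.1.2 _ _ _ h7 h6

/-- Equivalent elements give perfectly many models. -/
theorem perf_of_om [∀ n, Countable (L.Relations n)] [Finite (L.Relations 2)]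
    (h3 : ∀ n, 2 < n → IsEmpty (L.Relations n)) {Φ : C2 L} {R0 : L.Relations 2}
    {c : Code L} (hc : c ∈ KK Φ R0) {a b : ℕ} (hab : rho (toI c) R0 a b)
    (hbf : Om Φ (toI c) ![a] (toI c) ![b]) : PerfK (KK Φ R0) := by
  classical
  have hX : ∀ x y, ∃ d : Dat L, Relation.ReflTransGen (Arr Φ (toI c)) x a →
      Relation.ReflTransGen (Arr Φ (toI c)) y a → (x = y ∨ rho (toI c) R0 x y) →
      d ∈ Al Φ ∧ II Φ d ∧ ¬ d.e ∧
      d.map (fun _ => false) = dat (toI c) (subs Φ) x x ∧
      d.map (fun _ => true) = dat (toI c) (subs Φ) y y ∧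
      d.a 2 R0 ![false, true] ∧ ¬ d.a 2 R0 ![true, false] := by
    intro x y
    by_cases h : Relation.ReflTransGen (Arr Φ (toI c)) x a ∧
      Relation.ReflTransGen (Arr Φ (toI c)) y a ∧ (x = y ∨ rho (toI c) R0 x y)
    · obtain ⟨d, hd⟩ := exists_X h3 hc.1 hc.2 hab hbf h.1 h.2.1 h.2.2
      exact ⟨d, fun _ _ _ => hd⟩
    · exact ⟨dat (toI c) (subs Φ) x y, fun h1 h2 h4 => absurd ⟨h1, h2, h4⟩ h⟩
  choose X hX using hX
  exact perf_of_cg
    { I := toI c
      hI := hc.1
      hO := hc.2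
      S := {x | Relation.ReflTransGen (Arr Φ (toI c)) x a}
      a := a
      ha := Relation.ReflTransGen.refl
      hS := by
        intro x y hx hy
        by_contra hf
        apply hx
        have hxy : x ≠ y := by
          rintro rfl
          exact hx hy
        exact Relation.ReflTransGen.head ⟨hxy, hf⟩ hy
      X := X
      hX := fun x y hx hy hxy => hX x y hx hy hxy }

end Pool.Agent.H565R2.CO
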