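import Pool.Agent.H565R2.CO.Sub

set_option autoImplicit false

/-!
Decoding the real from the extended model.
-/

namespace Pool.Agent.H565R2.CO

open FirstOrder Set Topology MeasureTheory
open Pool.Agent.H565R2.FO2 (pick pick_false pick_true pick_self pick_pick Interp bool_fun_cases
  Code toI ofI toI_ofI Iso meas_toI)
open Pool.Agent.H565R2.LO2 (rho SPO vec_pick key en c0 DD key_inj key_c0 key_pos key_dep FB decode
  Btw Q QI Q_mono meas_Q meas_QI QI_iso rho_iso iso_symm PerfK perfK_of_inv meas_rho meas_SPO)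

section gen

variable {r : ℕ → ℕ → Prop} (htr : ∀ u v w, r u v → r v w → r u w) (x : ℕ → Bool) (p q : ℕ)
  (nu mu : ℕ → ℕ) (hmu : ∀ i, mu (nu i) = i)
  (itv : ∀ z, (r p z ∧ r z q) ↔ ∃ i, z = nu i ∧ en i ≠ c0)
  (hr : ∀ i j, r (nu i) (nu j) ↔ key x (en i) < key x (en j))

include htr itv hr hmu in
theorem fb_gen (i j : ℕ) (hi : en i ≠ c0) (hj : en j ≠ c0) :
    (∃ t : Finset ℕ, ∀ z, Btw r (nu i) z (nu j) → z ∈ t) ↔ FB x (en i) (en j) := by
  have hz : ∀ z, Btw r (nu i) z (nu j) → ∃ k, z = nu k := by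
    intro z h
    have hi2 := (itv (nu i)).2 ⟨i, rfl, hi⟩
    have hj2 := (itv (nu j)).2 ⟨j, rfl, hj⟩
    have : r p z ∧ r z q := by
      rcases h with ⟨h1, h2⟩ | ⟨h1, h2⟩
      · exact ⟨htr _ _ _ hi2.1 h1, htr _ _ _ h2 hj2.2⟩
      · exact ⟨htr _ _ _ hj2.1 h1, htr _ _ _ h2 hi2.2⟩
    obtain ⟨k, hk, -⟩ := (itv z).1 this
    exact ⟨k, hk⟩
  have hB : ∀ k, Btw r (nu i) (nu k) (nu j) ↔
      ((key x (en i) < key x (en k) ∧ key x (en k) < key x (en j)) ∨
      (key x (en j) < key x (en k) ∧ key x (en k) < key x (en i))) := by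
    intro k
    unfold LO2.Btw
    simp only [hr]
  constructor
  · rintro ⟨t, ht⟩
    unfold FB
    refine (t.finite_toSet.image (fun z => en (mu z))).subset ?_
    intro d hd
    refine ⟨nu (en.symm d), ?_, ?_⟩
    · apply ht
      rw [hB, Equiv.apply_symm_apply]
      exact hd
    · simp only
      rw [hmu, Equiv.apply_symm_apply]
  · intro h
    unfold FB at h
    have h2 := h.image (fun d => nu (en.symm d))
    refine ⟨h2.toFinset, fun z hzz => ?_⟩
    obtain ⟨k, rfl⟩ := hz z hzz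
    rw [Set.Finite.mem_toFinset]
    refine ⟨en k, (hB k).1 hzz, ?_⟩
    simp only [Equiv.symm_apply_apply]

include htr itv hr hmu in
theorem Q_gen (n : ℕ) : Q r (p, q) n ↔ x n = true := by
  rw [← decode x n]
  unfold Q
  simp only [itv]
  constructor
  · rintro ⟨y, ⟨i, rfl, hi⟩, s, hs, hw⟩
    refine ⟨en i, hi, s.image (fun z => en (mu z)), ?_, ?_⟩
    · rw [Finset.card_image_of_injOn, hs]
      intro u hu w hw' h
      obtain ⟨⟨k, rfl, -⟩, -⟩ := (hw u).1 hu
      obtain ⟨⟨l, rfl, -⟩, -⟩ := (hw w).1 hw'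
      have h3 := en.injective h
      rw [hmu, hmu] at h3
      rw [h3]
    · intro d
      rw [Finset.mem_image]
      constructor
      · rintro ⟨z, hz, rfl⟩
        obtain ⟨⟨k, rfl, hk⟩, h2⟩ := (hw z).1 hz
        rw [hmu]
        exact ⟨hk, (fb_gen htr x p q nu mu hmu itv hr i k hi hk).1 h2⟩
      · rintro ⟨hd, h2⟩
        refine ⟨nu (en.symm d), ?_, ?_⟩
        · rw [hw]
          refine ⟨⟨en.symm d, rfl, by rw [Equiv.apply_symm_apply]; exact hd⟩, ?_⟩
          rw [fb_gen htr x p q nu mu hmu itv hr i _ hi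
            (by rw [Equiv.apply_symm_apply]; exact hd), Equiv.apply_symm_apply]
          exact h2
        · rw [hmu, Equiv.apply_symm_apply]
  · rintro ⟨y, hy, s, hs, hw⟩
    refine ⟨nu (en.symm y), ⟨en.symm y, rfl, by rw [Equiv.apply_symm_apply]; exact hy⟩,
      s.image (fun d => nu (en.symm d)), ?_, ?_⟩
    · rw [Finset.card_image_of_injective, hs]
      intro u w h
      simp only at h
      have h3 := congrArg mu h
      rw [hmu, hmu] at h3
      exact en.symm.injective h3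
    · intro z
      rw [Finset.mem_image]
      constructor
      · rintro ⟨d, hd, rfl⟩
        obtain ⟨h1, h2⟩ := (hw d).1 hd
        refine ⟨⟨en.symm d, rfl, by rw [Equiv.apply_symm_apply]; exact h1⟩, ?_⟩
        rw [fb_gen htr x p q nu mu hmu itv hr _ _ (by rw [Equiv.apply_symm_apply]; exact hy)
          (by rw [Equiv.apply_symm_apply]; exact h1), Equiv.apply_symm_apply,
          Equiv.apply_symm_apply]
        exact h2
      · rintro ⟨⟨k, rfl, hk⟩, h2⟩
        refine ⟨en k, ?_, by rw [Equiv.symm_apply_apply]⟩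
        rw [hw]
        refine ⟨hk, ?_⟩
        rw [fb_gen htr x p q nu mu hmu itv hr _ _ (by rw [Equiv.apply_symm_apply]; exact hy) hk,
          Equiv.apply_symm_apply] at h2
        exact h2

end gen

variable {L : FirstOrder.Language.{0, 0}}

namespace Cg

variable {Φ : C2 L} {R0 : L.Relations 2} (C : Cg Φ R0)

/-- the new copies of `a` -/
noncomputable def nu (i : ℕ) : ℕ := C.mq C.a (i + 1)

theorem fu_nu (i : ℕ) : C.fu (C.nu i) = C.a := C.fu_mq (Or.inr C.ha)

theorem ly_nu (i : ℕ) : C.ly (C.nu i) = i + 1 := C.ly_mq (Or.inr C.ha)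

/-- the least new copy of `a` -/
noncomputable def p0 : ℕ := C.nu (en.symm c0)

/-- the old copy of `a` -/
noncomputable def q0 : ℕ := C.mq C.a 0

theorem fu_q0 : C.fu C.q0 = C.a := C.fu_mq (Or.inl rfl)

theorem ly_q0 : C.ly C.q0 = 0 := C.ly_mq (Or.inl rfl)

theorem nu_lt (x : ℕ → Bool) (i j : ℕ) :
    rho (C.Mo x) R0 (C.nu i) (C.nu j) ↔ key x (en i) < key x (en j) := by
  rw [C.Mo_rho]
  unfold Lt
  rw [C.fu_nu, C.fu_nu, C.ly_nu, C.ly_nu]
  unfold lt
  rw [Nat.add_sub_cancel, Nat.add_sub_cancel]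
  constructor
  · rintro (h | ⟨-, -, h | h⟩)
    · exact absurd h (C.hO.1.1 _)
    · omega
    · exact h
  · intro h
    exact Or.inr ⟨rfl, by omega, Or.inr h⟩

theorem itv (x : ℕ → Bool) (z : ℕ) :
    (rho (C.Mo x) R0 C.p0 z ∧ rho (C.Mo x) R0 z C.q0) ↔ ∃ i, z = C.nu i ∧ en i ≠ c0 := by
  have hi := C.hO.1.1
  have ht := C.hO.1.2
  constructor
  · rintro ⟨h1, h2⟩
    rw [C.Mo_rho] at h1 h2
    unfold Lt at h1 h2
    have hp : C.fu C.p0 = C.a := C.fu_nu _
    rw [hp] at h1
    rw [C.fu_q0] at h2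
    have hfz : C.fu z = C.a := by
      rcases h1 with h1 | h1
      · rcases h2 with h2 | h2
        · exact absurd (ht _ _ _ h1 h2) (hi _)
        · exact h2.1
      · exact h1.1.symm
    have h2' : lt x (C.ly z) (C.ly C.q0) := by
      rcases h2 with h2 | h2
      · rw [hfz] at h2; exact absurd h2 (hi _)
      · exact h2.2
    have h1' : lt x (C.ly C.p0) (C.ly z) := by
      rcases h1 with h1 | h1
      · rw [hfz] at h1; exact absurd h1 (hi _)
      · exact h1.2
    refine ⟨C.ly z - 1, ?_, ?_⟩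
    · apply C.fl_inj
      · rw [C.fu_nu, hfz]
      · rw [C.ly_nu]
        have := h2'.1
        omega
    · intro he
      have hl : C.ly C.p0 = C.ly z := by
        have h3 : C.ly z - 1 = en.symm c0 := by rw [← he, Equiv.symm_apply_apply]
        unfold p0
        rw [C.ly_nu, ← h3]
        have := h2'.1
        omega
      rw [hl] at h1'
      exact lt_asym x h1' h1'
  · rintro ⟨i, rfl, hi⟩
    refine ⟨?_, ?_⟩
    · unfold p0
      rw [C.nu_lt, Equiv.apply_symm_apply, key_c0]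
      exact (key_pos x hi).1
    · rw [C.Mo_rho]
      refine Or.inr ⟨by rw [C.fu_nu, C.fu_q0], ?_⟩
      rw [C.ly_nu, C.ly_q0]
      exact ⟨by omega, Or.inl rfl⟩

theorem Q_iff (x : ℕ → Bool) (n : ℕ) : Q (rho (C.Mo x) R0) (C.p0, C.q0) n ↔ x n = true :=
  Q_gen (C.Mo_slo x).1.2 x C.p0 C.q0 C.nu (fun u => C.ly u - 1)
    (fun i => by simp only [C.ly_nu]; omega) (C.itv x) (C.nu_lt x) n

theorem dl_dep (u w : ℕ) :
    ∃ (F : Bool → Bool → Dat L) (i j : ℕ), ∀ x, C.dl x u w = F (x i) (x j) := by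
  classical
  obtain ⟨F1, n1, h1⟩ := key_dep (en (C.ly u - 1))
  obtain ⟨F2, n2, h2⟩ := key_dep (en (C.ly w - 1))
  refine ⟨fun β γ => if C.cr u w then
    (if rho C.I R0 (C.fu u) (C.fu w) ∨ (C.fu u = C.fu w ∧
      (C.ly u ≠ 0 ∧ (C.ly w = 0 ∨ F1 β < F2 γ)))
      then C.X (C.fu u) (C.fu w) else (C.X (C.fu w) (C.fu u)).map not)
    else dat C.I (subs Φ) (C.fu u) (C.fu w), n1, n2, fun x => ?_⟩
  unfold dl Lt lt
  simp only [h1, h2]

open Classical in
theorem cont_incl : Continuous (fun x : ℕ → Bool => ofI (C.Mo x)) := by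
  rw [continuous_pi_iff]
  rintro ⟨n, R, t⟩
  by_cases hrep : ∃ (u w : ℕ) (v : Fin n → Bool), t = fun k => pick u w (v k)
  · obtain ⟨u, w, v, rfl⟩ := hrep
    obtain ⟨F, i, j, hF⟩ := C.dl_dep u w
    have : (fun x : ℕ → Bool => ofI (C.Mo x) ⟨n, R, fun k => pick u w (v k)⟩) =
        (fun β : Bool × Bool => decide ((F β.1 β.2).a n R v)) ∘ fun x => (x i, x j) := by
      funext x
      simp only [ofI, Function.comp, decide_eq_decide]
      rw [Mo, mkI_iff (C.dl_coh _), hF]
    rw [this]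
    exact (continuous_of_discreteTopology).comp
      ((continuous_apply i).prodMk (continuous_apply j))
  · have : (fun x : ℕ → Bool => ofI (C.Mo x) ⟨n, R, t⟩) = fun _ => false := by
      funext x
      simp only [ofI, decide_eq_false_iff_not]
      rintro ⟨u, w, v, ht, -⟩
      exact hrep ⟨u, w, v, ht⟩
    rw [this]
    exact continuous_const

end Cg

/-- Codes of ordered models. -/
def KK (Φ : C2 L) (R0 : L.Relations 2) : Set (Code L) :=
  {c | toI c ∈ Md Φ ∧ SLO (rho (toI c) R0)}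

/-- A configuration gives perfectly many models. -/
theorem perf_of_cg [∀ n, Countable (L.Relations n)] {Φ : C2 L} {R0 : L.Relations 2}
    (C : Cg Φ R0) : PerfK (KK Φ R0) := by
  classical
  refine perfK_of_inv (K := KK Φ R0) (Y := ℕ → Bool) (Z := ℕ → Bool) (ι := ℕ × ℕ)
    (fun x => ofI (C.Mo x)) C.cont_incl.measurable ?_
    (fun p x => QI R0 p (ofI (C.Mo x))) ?_ ?_ ?_
  · intro x
    refine ⟨?_, ?_⟩
    · rw [toI_ofI]; exact C.Mo_mem x
    · rw [toI_ofI]; exact C.Mo_slo x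
  · intro p
    exact (meas_QI R0 p).comp C.cont_incl.measurable
  · rintro y y' ⟨g, hg⟩ p
    exact ⟨(g p.1, g p.2), QI_iso g hg R0 p⟩
  · intro hc
    have h1 : (Set.univ : Set (ℕ → Bool)).Countable := by
      refine hc.mono ?_
      intro x _
      refine mem_iUnion.2 ⟨(C.p0, C.q0), x, ?_⟩
      funext k
      simp only [QI]
      rw [Bool.eq_iff_iff, decide_eq_true_iff, toI_ofI]
      exact C.Q_iff x k
    exact Pool.Agent.H565R2.FO2.Cfg.cantor_unc h1

end Pool.Agent.H565R2.CO
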