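import Pool.Agent.H565R2.CO.Cmb

set_option autoImplicit false

/-!
The dichotomy for two-variable logic with counting over linear orders.
-/

namespace Pool.Agent.H565R2.CO

open FirstOrder Set Topology MeasureTheory Matrix
open Pool.Agent.H565R2.FO2 (pick pick_false pick_true pick_self pick_pick Interp bool_fun_cases
  Code toI ofI toI_ofI Iso meas_toI cx cx_cont tri hd Sp In3 In3_iso In3_cx)
open Pool.Agent.H565R2.LO2 (rho SPO vec_pick rho_iso iso_symm PerfK perfK_of_inv meas_rho meas_SPO)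

variable {L : FirstOrder.Language.{0, 0}}

theorem iso_of_set {Φ : C2 L} {R0 : L.Relations 2}
    (hinj : ∀ c ∈ KK Φ R0, ∀ a b, Om Φ (toI c) ![a] (toI c) ![b] → a = b)
    (h2 : ∀ n, 2 < n → IsEmpty (L.Relations n))
    {c c' : Code L} (hc : c ∈ KK Φ R0) (hc' : c' ∈ KK Φ R0)
    (h : ∀ a : Fin 2 → ℕ, ∃ a', Om Φ (toI c) a (toI c') a')
    (h' : ∀ a' : Fin 2 → ℕ, ∃ a, Om Φ (toI c) a (toI c') a') : Iso c c' := by
  classical
  have e0 : ∀ a : Fin 2 → ℕ, (a ∘ ![(0 : Fin 2)] : Fin 1 → ℕ) = ![a 0] := by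
    intro a; funext i; fin_cases i; rfl
  have e1 : ∀ a : Fin 2 → ℕ, (a ∘ ![(1 : Fin 2)] : Fin 1 → ℕ) = ![a 1] := by
    intro a; funext i; fin_cases i; rfl
  have p0 : ∀ {I I' : Interp L ℕ} {a a' : Fin 2 → ℕ}, Om Φ I a I' a' →
      Om Φ I ![a 0] I' ![a' 0] := by
    intro I I' a a' h n
    have := (h n).map ![(0 : Fin 2)]
    rwa [e0, e0] at this
  have p1 : ∀ {I I' : Interp L ℕ} {a a' : Fin 2 → ℕ}, Om Φ I a I' a' →
      Om Φ I ![a 1] I' ![a' 1] := by
    intro I I' a a' h n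
    have := (h n).map ![(1 : Fin 2)]
    rwa [e1, e1] at this
  have hf : ∀ x, ∃ x', Om Φ (toI c) ![x] (toI c') ![x'] := by
    intro x
    obtain ⟨a', ha'⟩ := h ![x, x]
    exact ⟨a' 0, p0 ha'⟩
  have hf' : ∀ x', ∃ x, Om Φ (toI c) ![x] (toI c') ![x'] := by
    intro x'
    obtain ⟨a, ha⟩ := h' ![x', x']
    exact ⟨a 0, p0 ha⟩
  choose f hf using hf
  choose f' hf' using hf'
  have hff' : ∀ x, f' (f x) = x := fun x =>
    hinj c hc _ _ fun n => (hf' (f x) n).trans (hf x n).symm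
  have hf'f : ∀ x, f (f' x) = x := fun x =>
    hinj c' hc' _ _ fun n => (hf (f' x) n).symm.trans (hf' x n)
  let g : ℕ ≃ ℕ := ⟨f, f', hff', hf'f⟩
  have hall : ∀ x y, dat (toI c') (subs Φ) (g x) (g y) = dat (toI c) (subs Φ) x y := by
    intro x y
    obtain ⟨a', ha'⟩ := h ![x, y]
    have h1 : a' 0 = g x := hinj c' hc' _ _ fun n => (p0 ha' n).symm.trans (hf x n)
    have h2 : a' 1 = g y := hinj c' hc' _ _ fun n => (p1 ha' n).symm.trans (hf y n)
    have h3 : dat (toI c) (subs Φ) x y = dat (toI c') (subs Φ) (a' 0) (a' 1) := ha' 0 0 1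
    rw [h3, h1, h2]
  refine ⟨g, fun n R t => ?_⟩
  have hrep : ∃ (x y : ℕ) (v : Fin n → Bool), t = fun k => pick x y (v k) := by
    rcases Nat.lt_or_ge 2 n with hn | hn
    · exact (h2 n hn).elim R
    · interval_cases n
      · exact ⟨0, 0, fun _ => false, Subsingleton.elim _ _⟩
      · refine ⟨t 0, t 0, fun _ => false, ?_⟩
        funext k
        rw [Subsingleton.elim k 0]; rfl
      · refine ⟨t 0, t 1, ![false, true], ?_⟩
        funext k
        fin_cases k <;> rfl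
  obtain ⟨x, y, v, rfl⟩ := hrep
  have h3 : (dat (toI c') (subs Φ) (g x) (g y)).a n R v ↔ (dat (toI c) (subs Φ) x y).a n R v := by
    rw [hall]
  have h4 : (fun k => g (pick x y (v k))) = fun k => pick (g x) (g y) (v k) := by
    funext k; cases v k <;> rfl
  rw [h4]
  have h5 : (c' ⟨n, R, fun k => pick (g x) (g y) (v k)⟩ = true) ↔
      (c ⟨n, R, fun k => pick x y (v k)⟩ = true) := h3
  rw [Bool.eq_iff_iff]
  exact h5.symm

theorem Rl_congr {M : Type} {I I' : Interp L M}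
    (h : ∀ n (R : L.Relations n) (v : Fin n → Bool) x y,
      I n R (fun k => pick x y (v k)) ↔ I' n R (fun k => pick x y (v k)))
    (φ : C2 L) (x y : M) : Rl I φ x y ↔ Rl I' φ x y := by
  induction φ generalizing x y with
  | eq i j => exact Iff.rfl
  | rel R v => exact h _ R v x y
  | neg φ ih => simp only [Rl]; rw [ih]
  | inf f ih =>
    simp only [Rl]
    exact forall_congr' fun n => ih n x y
  | ex b n φ ih =>
    cases b
    · simp only [Rl, ih]
    · simp only [Rl, ih]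

theorem perf_of_ternary {Φ : C2 L} {R0 : L.Relations 2} {n : ℕ} (hn : 2 < n) (R : L.Relations n)
    {c0 : Code L} (hc0 : c0 ∈ KK Φ R0) : PerfK (KK Φ R0) := by
  classical
  have hrho : ∀ (x : ℕ → Bool) (R' : L.Relations 2), rho (toI (cx c0 x)) R' = rho (toI c0) R' := by
    intro x R'
    funext u w
    unfold rho toI cx
    rw [if_pos ⟨u, w, ![false, true], vec_pick u w⟩]
  refine ⟨cx c0, cx_cont c0, fun x => ⟨?_, ?_⟩, ?_⟩
  · intro a b
    rw [Rl_congr (I' := toI c0)]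
    · exact hc0.1 a b
    · intro n R v x' y'
      unfold toI cx
      rw [if_pos ⟨x', y', v, rfl⟩]
  · rw [hrho]; exact hc0.2
  have key : ∀ x x' : ℕ → Bool, Iso (cx c0 x) (cx c0 x') → ∀ u, x u = true → x' u = true := by
    rintro x x' ⟨g, hg⟩ u hu
    have h1 : In3 (cx c0 x) R (2 * u + 2) := by
      rw [In3_cx c0 x hn R]
      exact ⟨u, by rw [hu]; rfl⟩
    have h2 := In3_iso g hg R _ h1
    rw [In3_cx c0 x' hn R] at h2
    obtain ⟨u', hu'⟩ := h2
    cases hx : x' u'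
    · rw [hx] at hu'
      simp only [Bool.toNat_false] at hu'
      omega
    · rw [hx] at hu'
      simp only [Bool.toNat_true] at hu'
      have : u = u' := by omega
      rw [this]; exact hx
  intro x x' h
  funext u
  rw [Bool.eq_iff_iff]
  exact ⟨key x x' h u, key x' x (iso_symm h) u⟩

/-- The dichotomy. -/
theorem main [∀ n, Countable (L.Relations n)] [Finite (L.Relations 2)] (Φ : C2 L)
    (R0 : L.Relations 2) :
    (∃ g : ℕ → Code L, ∀ c ∈ KK Φ R0, ∃ n, Iso c (g n)) ∨ PerfK (KK Φ R0) := by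
  by_cases hP : PerfK (KK Φ R0)
  · exact Or.inr hP
  left
  by_cases hne : (KK Φ R0).Nonempty
  · have h3 : ∀ n, 2 < n → IsEmpty (L.Relations n) := by
      intro n hn
      refine ⟨fun R => ?_⟩
      exact hP (perf_of_ternary hn R hne.some_mem)
    have hinj : ∀ c ∈ KK Φ R0, ∀ a b, Om Φ (toI c) ![a] (toI c) ![b] → a = b := by
      intro c hc a b h
      by_contra hab
      apply hP
      rcases hc.2.2 a b hab with h1 | h1
      · exact perf_of_om h3 hc h1 h
      · exact perf_of_om h3 hc h1 fun n => (h n).symm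
    obtain ⟨r, hr1, hr2⟩ := set_ct hP hne 2
    refine ⟨r, fun c hc => ?_⟩
    obtain ⟨i, h1, h2⟩ := hr2 c hc
    exact ⟨i, iso_of_set hinj h3 hc (hr1 i) h1 h2⟩
  · exact ⟨fun _ => fun _ => false, fun c hc => absurd ⟨c, hc⟩ hne⟩

end Pool.Agent.H565R2.CO
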