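import Pool.Agent.H565R2.CO.Dec

set_option autoImplicit false

/-!
Measurability and back-and-forth types.
-/

namespace Pool.Agent.H565R2.CO

open FirstOrder Set Topology MeasureTheory
open Pool.Agent.H565R2.FO2 (pick pick_false pick_true pick_self pick_pick Interp bool_fun_cases
  Code toI ofI toI_ofI Iso meas_toI)
open Pool.Agent.H565R2.LO2 (rho SPO vec_pick rho_iso iso_symm PerfK perfK_of_inv meas_rho meas_SPO)

variable {L : FirstOrder.Language.{0, 0}}

theorem le_encard_iff (A : Set ℕ) (n : ℕ) :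
    (n : ℕ∞) ≤ A.encard ↔ ∃ s : Finset ℕ, s.card = n ∧ ∀ z, z ∈ s → z ∈ A := by
  constructor
  · intro h
    obtain ⟨t, ht, hc⟩ := Set.exists_subset_encard_eq h
    have hf : t.Finite := Set.finite_of_encard_eq_coe hc
    refine ⟨hf.toFinset, ?_, fun z hz => ht (hf.mem_toFinset.1 hz)⟩
    rw [hf.encard_eq_coe_toFinset_card] at hc
    exact_mod_cast hc
  · rintro ⟨s, hs, h⟩
    rw [← hs, ← Set.encard_coe_eq_coe_finsetCard]
    exact Set.encard_le_encard h

theorem enat_ext {a b : ℕ∞} (h : ∀ n : ℕ, (n : ℕ∞) ≤ a ↔ (n : ℕ∞) ≤ b) : a = b := by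
  apply le_antisymm
  · exact ENat.forall_natCast_le_iff_le.1 fun n hn => (h n).1 hn
  · exact ENat.forall_natCast_le_iff_le.1 fun n hn => (h n).2 hn

theorem meas_Rl (φ : C2 L) (x y : ℕ) : Measurable (fun c : Code L => Rl (toI c) φ x y) := by
  induction φ generalizing x y with
  | eq i j => exact measurable_const
  | rel R v => exact meas_toI R _
  | neg φ ih => exact (ih x y).not
  | inf f ih => exact Measurable.forall fun n => ih n x y
  | ex b n φ ih =>
    cases b
    · simp only [Rl, le_encard_iff]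
      exact Measurable.exists fun s => measurable_const.and
        (Measurable.forall fun z => measurable_const.imp (ih z y))
    · simp only [Rl, le_encard_iff]
      exact Measurable.exists fun s => measurable_const.and
        (Measurable.forall fun z => measurable_const.imp (ih x z))

theorem meas_Md (Φ : C2 L) : MeasurableSet {c : Code L | toI c ∈ Md Φ} := by
  apply measurableSet_setOfPred.2
  exact Measurable.forall fun x => Measurable.forall fun y => meas_Rl Φ x y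

theorem meas_KK (Φ : C2 L) (R0 : L.Relations 2) : MeasurableSet (KK Φ R0) := by
  apply measurableSet_setOfPred.2
  refine (measurableSet_setOfPred.1 (meas_Md Φ)).and ?_
  unfold SLO
  refine (meas_SPO R0).and ?_
  refine Measurable.forall fun u => Measurable.forall fun w => ?_
  exact measurable_const.imp ((meas_rho R0 u w).or (meas_rho R0 w u))

/-- Index set for the codes of data. -/
abbrev KI (Φ : C2 L) : Type :=
  Unit ⊕ (Σ n, L.Relations n × (Fin n → Bool)) ⊕ (Bool × Bool × ↥(subs Φ) × ℕ)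

instance ki_ct [∀ n, Countable (L.Relations n)] (Φ : C2 L) : Countable (KI Φ) := by
  have := (subs_countable Φ).to_subtype
  infer_instance

/-- The bits of the data. -/
def code (Φ : C2 L) (d : Dat L) : KI Φ → Prop
  | .inl _ => d.e
  | .inr (.inl ⟨n, R, v⟩) => d.a n R v
  | .inr (.inr ⟨b, c, ψ, n⟩) => (n : ℕ∞) ≤ d.l b c ψ

theorem al_l {Φ : C2 L} {d : Dat L} (hd : d ∈ Al Φ) {b c : Bool} {ψ : C2 L} (h : ψ ∉ subs Φ) :
    d.l b c ψ = 0 := by
  obtain ⟨I, -, x, y, rfl⟩ := hd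
  simp only [dat, mkd, lab, if_neg h]

theorem code_inj {Φ : C2 L} {d d' : Dat L} (hd : d ∈ Al Φ) (hd' : d' ∈ Al Φ)
    (h : ∀ k, code Φ d k ↔ code Φ d' k) : d = d' := by
  apply Dat.ext'
  · exact h (.inl ())
  · intro n R v
    exact h (.inr (.inl ⟨n, R, v⟩))
  · intro b c ψ
    by_cases hψ : ψ ∈ subs Φ
    · exact enat_ext fun n => h (.inr (.inr ⟨b, c, ⟨ψ, hψ⟩, n⟩))
    · rw [al_l hd hψ, al_l hd' hψ]

theorem meas_code (Φ : C2 L) (x y : ℕ) (k : KI Φ) :
    Measurable (fun c : Code L => code Φ (dat (toI c) (subs Φ) x y) k) := by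
  rcases k with u | ⟨n, R, v⟩ | ⟨b, c, ψ, n⟩
  · exact measurable_const
  · exact meas_toI R _
  · have h : ∀ k : Code L, code Φ (dat (toI k) (subs Φ) x y) (.inr (.inr ⟨b, c, ψ, n⟩)) ↔
        Rl (toI k) (.ex c n ψ.1) (pick x y b) (pick x y b) := by
      intro k
      simp only [code, dat, mkd, lab, if_pos ψ.2]
      cases c
      · simp only [cond_false, Rl]
      · simp only [cond_true, Rl]
    simp only [h]
    exact meas_Rl _ _ _

theorem Rl_iso {c c' : Code L} (g : ℕ ≃ ℕ)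
    (hg : ∀ n (R : L.Relations n) (t : Fin n → ℕ), c ⟨n, R, t⟩ = c' ⟨n, R, fun k => g (t k)⟩)
    (φ : C2 L) (x y : ℕ) : Rl (toI c) φ x y ↔ Rl (toI c') φ (g x) (g y) := by
  induction φ generalizing x y with
  | eq i j =>
    simp only [Rl]
    cases i <;> cases j <;> simp
  | rel R v =>
    simp only [Rl, toI]
    rw [hg]
    have : (fun k => g (pick x y (v k))) = fun k => pick (g x) (g y) (v k) := by
      funext k; cases v k <;> rfl
    rw [this]
  | neg φ ih => simp only [Rl]; rw [ih]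
  | inf f ih =>
    simp only [Rl]
    exact forall_congr' fun n => ih n x y
  | ex b n φ ih =>
    cases b
    · simp only [Rl]
      have : {z | Rl (toI c') φ z (g y)} = g '' {z | Rl (toI c) φ z y} := by
        ext z
        obtain ⟨z, rfl⟩ := g.surjective z
        rw [g.injective.mem_set_image]
        exact (ih z y).symm
      rw [this, g.injective.encard_image]
    · simp only [Rl]
      have : {z | Rl (toI c') φ (g x) z} = g '' {z | Rl (toI c) φ x z} := by
        ext z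
        obtain ⟨z, rfl⟩ := g.surjective z
        rw [g.injective.mem_set_image]
        exact (ih x z).symm
      rw [this, g.injective.encard_image]

theorem dat_iso {c c' : Code L} (g : ℕ ≃ ℕ)
    (hg : ∀ n (R : L.Relations n) (t : Fin n → ℕ), c ⟨n, R, t⟩ = c' ⟨n, R, fun k => g (t k)⟩)
    (J : Set (C2 L)) (x y : ℕ) : dat (toI c) J x y = dat (toI c') J (g x) (g y) := by
  apply Dat.ext'
  · simp [dat, mkd]
  · intro n R v
    exact Rl_iso g hg (.rel R v) x y
  · intro b d ψ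
    have h1 : pick (g x) (g y) b = g (pick x y b) := by cases b <;> rfl
    simp only [dat, mkd, h1, lab]
    by_cases hψ : ψ ∈ J
    · rw [if_pos hψ, if_pos hψ]
      cases d
      · simp only [cond_false]
        exact enat_ext fun n => Rl_iso g hg (.ex false n ψ) (pick x y b) (pick x y b)
      · simp only [cond_true]
        exact enat_ext fun n => Rl_iso g hg (.ex true n ψ) (pick x y b) (pick x y b)
    · rw [if_neg hψ, if_neg hψ]

theorem meas_dat_eq [∀ n, Countable (L.Relations n)] {Φ : C2 L} {R0 : L.Relations 2}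
    (x y : ℕ) {d : Dat L} (hd : d ∈ Al Φ) :
    Measurable (fun k : ↥(KK Φ R0) => dat (toI k.1) (subs Φ) x y = d) := by
  have : (fun k : ↥(KK Φ R0) => dat (toI k.1) (subs Φ) x y = d) =
      (fun k : ↥(KK Φ R0) => ∀ i : KI Φ, code Φ (dat (toI k.1) (subs Φ) x y) i ↔ code Φ d i) := by
    funext k
    apply propext
    constructor
    · intro h i
      rw [h]
    · intro h
      exact code_inj (al_dat k.2.1 x y) hd h
  rw [this]
  exact Measurable.forall fun i =>
    ((meas_code Φ x y i).comp measurable_subtype_coe).iff measurable_const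

/-- Countably many values of the invariants if there are not perfectly many models. -/
theorem reps [∀ n, Countable (L.Relations n)] {K : Set (Code L)} (hK : MeasurableSet K)
    (hP : ¬ PerfK K) (hne : K.Nonempty) {ι κ : Type} [Countable ι] [Nonempty ι] [Countable κ]
    (P : ι → κ → Code L → Prop)
    (hM : ∀ i k, Measurable (fun y : ↥K => P i k y.1))
    (hE : ∀ c c' : Code L, ∀ g : ℕ ≃ ℕ,
      (∀ n (R : L.Relations n) (t : Fin n → ℕ), c ⟨n, R, t⟩ = c' ⟨n, R, fun k => g (t k)⟩) →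
      ∀ i, ∃ j, ∀ k, P i k c ↔ P j k c') :
    ∃ r : ℕ → Code L × ι, (∀ n, (r n).1 ∈ K) ∧
      ∀ c ∈ K, ∀ i, ∃ n, ∀ k, P i k c ↔ P (r n).2 k (r n).1 := by
  classical
  have := hK.standardBorel
  have hct : (⋃ i, Set.range (fun (y : ↥K) => (fun k => decide (P i k y.1) : κ → Bool))).Countable := by
    by_contra hunc
    apply hP
    refine perfK_of_inv (K := K) (Y := ↥K) (Z := κ → Bool) (ι := ι)
      (fun y => y.1) measurable_subtype_coe (fun y => y.2)
      (fun i y => fun k => decide (P i k y.1)) ?_ ?_ hunc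
    · intro i
      rw [measurable_pi_iff]
      intro k
      apply measurable_to_bool
      have : (fun y : ↥K => decide (P i k y.1)) ⁻¹' {true} = {y : ↥K | P i k y.1} := by
        ext y; simp
      rw [this]
      exact measurableSet_setOfPred.2 (hM i k)
    · rintro y y' ⟨g, hg⟩ i
      obtain ⟨j, hj⟩ := hE _ _ g hg i
      refine ⟨j, ?_⟩
      funext k
      rw [decide_eq_decide]
      exact hj k
  obtain ⟨c0, hc0⟩ := hne
  let V : Set (κ → Bool) :=
    ⋃ i, Set.range (fun (y : ↥K) => (fun k => decide (P i k y.1) : κ → Bool))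
  have hVne : V.Nonempty :=
    ⟨_, mem_iUnion.2 ⟨Classical.arbitrary ι, ⟨c0, hc0⟩, rfl⟩⟩
  obtain ⟨f, hf⟩ := hct.exists_eq_range hVne
  have hex : ∀ n, ∃ q : Code L × ι, q.1 ∈ K ∧ f n = fun k => decide (P q.2 k q.1) := by
    intro n
    have h1 : f n ∈ V := by
      change f n ∈ ⋃ i, Set.range (fun (y : ↥K) => (fun k => decide (P i k y.1) : κ → Bool))
      rw [hf]; exact ⟨n, rfl⟩
    obtain ⟨i, y, hy⟩ := mem_iUnion.1 h1
    exact ⟨(y.1, i), y.2, hy.symm⟩
  choose r hr1 hr2 using hex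
  refine ⟨r, hr1, fun c hc i => ?_⟩
  have h1 : (fun k => decide (P i k c)) ∈ V := mem_iUnion.2 ⟨i, ⟨c, hc⟩, rfl⟩
  have h2 : (fun k => decide (P i k c)) ∈ Set.range f := by
    rw [← hf]; exact h1
  obtain ⟨n, hn⟩ := h2
  refine ⟨n, fun k => ?_⟩
  have h3 := congrFun ((hr2 n).symm.trans hn) k
  simp only [decide_eq_decide] at h3
  exact h3.symm

open Matrix in
/-- Back-and-forth equivalence. -/
def BF (Φ : C2 L) : ℕ → ∀ {k : ℕ}, Interp L ℕ → (Fin k → ℕ) → Interp L ℕ → (Fin k → ℕ) → Prop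
  | 0, _, I, a, I', a' => ∀ i j, dat I (subs Φ) (a i) (a j) = dat I' (subs Φ) (a' i) (a' j)
  | n + 1, _, I, a, I', a' =>
      (∀ z, ∃ z', BF Φ n I (vecCons z a) I' (vecCons z' a')) ∧
      (∀ z', ∃ z, BF Φ n I (vecCons z a) I' (vecCons z' a'))

open Matrix

theorem BF.refl (Φ : C2 L) (n : ℕ) {k : ℕ} (I : Interp L ℕ) (a : Fin k → ℕ) :
    BF Φ n I a I a := by
  induction n generalizing k with
  | zero => intro i j; rfl
  | succ n ih => exact ⟨fun z => ⟨z, ih _⟩, fun z => ⟨z, ih _⟩⟩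

theorem BF.symm {Φ : C2 L} {n k : ℕ} {I I' : Interp L ℕ} {a a' : Fin k → ℕ}
    (h : BF Φ n I a I' a') : BF Φ n I' a' I a := by
  induction n generalizing k with
  | zero => intro i j; exact (h i j).symm
  | succ n ih =>
    refine ⟨fun z => ?_, fun z => ?_⟩
    · obtain ⟨z', hz'⟩ := h.2 z
      exact ⟨z', ih hz'⟩
    · obtain ⟨z', hz'⟩ := h.1 z
      exact ⟨z', ih hz'⟩

theorem BF.trans {Φ : C2 L} {n k : ℕ} {I I' I'' : Interp L ℕ} {a a' a'' : Fin k → ℕ}
    (h : BF Φ n I a I' a') (h' : BF Φ n I' a' I'' a'') : BF Φ n I a I'' a'' := by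
  induction n generalizing k with
  | zero => intro i j; exact (h i j).trans (h' i j)
  | succ n ih =>
    refine ⟨fun z => ?_, fun z => ?_⟩
    · obtain ⟨z', hz'⟩ := h.1 z
      obtain ⟨z'', hz''⟩ := h'.1 z'
      exact ⟨z'', ih hz' hz''⟩
    · obtain ⟨z', hz'⟩ := h'.2 z
      obtain ⟨z'', hz''⟩ := h.2 z'
      exact ⟨z'', ih hz'' hz'⟩

theorem BF.map {Φ : C2 L} {n k m : ℕ} {I I' : Interp L ℕ} {a a' : Fin k → ℕ}
    (h : BF Φ n I a I' a') (σ : Fin m → Fin k) : BF Φ n I (a ∘ σ) I' (a' ∘ σ) := by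
  induction n generalizing k m with
  | zero => intro i j; exact h (σ i) (σ j)
  | succ n ih =>
    have e : ∀ (z : ℕ) (b : Fin k → ℕ),
        vecCons z b ∘ (vecCons 0 (Fin.succ ∘ σ) : Fin (m + 1) → Fin (k + 1)) =
          vecCons z (b ∘ σ) := by
      intro z b
      funext i
      refine Fin.cases ?_ (fun i => ?_) i
      · rfl
      · simp [Function.comp]
    refine ⟨fun z => ?_, fun z => ?_⟩
    · obtain ⟨z', hz'⟩ := h.1 z
      have := ih hz' (vecCons 0 (Fin.succ ∘ σ))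
      rw [e, e] at this
      exact ⟨z', this⟩
    · obtain ⟨z', hz'⟩ := h.2 z
      have := ih hz' (vecCons 0 (Fin.succ ∘ σ))
      rw [e, e] at this
      exact ⟨z', this⟩

theorem BF.tail {Φ : C2 L} {n k : ℕ} {I I' : Interp L ℕ} {a a' : Fin k → ℕ} {z z' : ℕ}
    (h : BF Φ n I (vecCons z a) I' (vecCons z' a')) : BF Φ n I a I' a' := by
  have := h.map Fin.succ
  have e : ∀ (z : ℕ) (b : Fin k → ℕ), vecCons z b ∘ Fin.succ = b := by
    intro z b; funext i; simp
  rw [e, e] at this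
  exact this

theorem BF.down {Φ : C2 L} {n k : ℕ} {I I' : Interp L ℕ} {a a' : Fin k → ℕ}
    (h : BF Φ (n + 1) I a I' a') : BF Φ n I a I' a' := by
  obtain ⟨z', hz'⟩ := h.1 0
  exact hz'.tail

theorem BF.mono {Φ : C2 L} {n m k : ℕ} (hnm : m ≤ n) {I I' : Interp L ℕ} {a a' : Fin k → ℕ}
    (h : BF Φ n I a I' a') : BF Φ m I a I' a' := by
  induction n with
  | zero =>
    have : m = 0 := by omega
    subst this; exact h
  | succ n ih =>
    rcases Nat.lt_or_ge n m with h1 | h1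
    · have : m = n + 1 := by omega
      subst this; exact h
    · exact ih h1 h.down

theorem BF.iso {Φ : C2 L} {c c' : Code L} (g : ℕ ≃ ℕ)
    (hg : ∀ n (R : L.Relations n) (t : Fin n → ℕ), c ⟨n, R, t⟩ = c' ⟨n, R, fun k => g (t k)⟩)
    (n : ℕ) {k : ℕ} (a : Fin k → ℕ) : BF Φ n (toI c) a (toI c') (fun i => g (a i)) := by
  induction n generalizing k with
  | zero => intro i j; exact dat_iso g hg _ _ _
  | succ n ih =>
    have e : ∀ (z : ℕ), (fun i => g ((vecCons z a) i)) = vecCons (g z) (fun i => g (a i)) := by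
      intro z
      funext i
      refine Fin.cases ?_ (fun i => ?_) i
      · rfl
      · simp
    refine ⟨fun z => ⟨g z, ?_⟩, fun z => ⟨g.symm z, ?_⟩⟩
    · rw [← e]; exact ih _
    · have := ih (vecCons (g.symm z) a)
      rw [e, Equiv.apply_symm_apply] at this
      exact this

theorem meas_BF [∀ n, Countable (L.Relations n)] {Φ : C2 L} {R0 : L.Relations 2} (n : ℕ)
    {k : ℕ} (a : Fin k → ℕ) {I' : Interp L ℕ} (hI' : I' ∈ Md Φ) (a' : Fin k → ℕ) :
    Measurable (fun y : ↥(KK Φ R0) => BF Φ n (toI y.1) a I' a') := by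
  induction n generalizing k with
  | zero =>
    exact Measurable.forall fun i => Measurable.forall fun j =>
      meas_dat_eq _ _ (al_dat hI' _ _)
  | succ n ih =>
    exact (Measurable.forall fun z => Measurable.exists fun z' => ih _ _).and
      (Measurable.forall fun z => Measurable.exists fun z' => ih _ _)

/-- Countably many back-and-forth classes. -/
theorem bf_ct [∀ n, Countable (L.Relations n)] {Φ : C2 L} {R0 : L.Relations 2}
    (hP : ¬ PerfK (KK Φ R0)) (hne : (KK Φ R0).Nonempty) (n k : ℕ) :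
    ∃ r : ℕ → Code L × (Fin k → ℕ), (∀ i, (r i).1 ∈ KK Φ R0) ∧
      ∀ c ∈ KK Φ R0, ∀ a, ∃ i, BF Φ n (toI c) a (toI (r i).1) (r i).2 := by
  induction n generalizing k with
  | zero =>
    obtain ⟨r, hr1, hr2⟩ := reps (meas_KK Φ R0) hP hne (ι := Fin k → ℕ)
      (κ := Fin k × Fin k × KI Φ)
      (fun a q c => code Φ (dat (toI c) (subs Φ) (a q.1) (a q.2.1)) q.2.2)
      (fun a q => (meas_code Φ _ _ _).comp measurable_subtype_coe)
      (fun c c' g hg a => ⟨fun i => g (a i), fun q => by rw [dat_iso g hg]⟩)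
    refine ⟨r, hr1, fun c hc a => ?_⟩
    obtain ⟨m, hm⟩ := hr2 c hc a
    refine ⟨m, fun i j => ?_⟩
    exact code_inj (al_dat hc.1 _ _) (al_dat (hr1 m).1 _ _) fun q => hm (i, j, q)
  | succ n ih =>
    obtain ⟨s, hs1, hs2⟩ := ih (k + 1)
    have hE : ∀ c c' : Code L, ∀ g : ℕ ≃ ℕ,
        (∀ n (R : L.Relations n) (t : Fin n → ℕ), c ⟨n, R, t⟩ = c' ⟨n, R, fun k => g (t k)⟩) →
        ∀ a : Fin k → ℕ, ∃ b : Fin k → ℕ, ∀ q,
          (∃ z, BF Φ n (toI c) (vecCons z a) (toI (s q).1) (s q).2) ↔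
            (∃ z, BF Φ n (toI c') (vecCons z b) (toI (s q).1) (s q).2) := by
      intro c c' g hg a
      have e : ∀ (z : ℕ), (fun i => g ((vecCons z a) i)) = vecCons (g z) (fun i => g (a i)) := by
        intro z
        funext i
        refine Fin.cases ?_ (fun i => ?_) i
        · rfl
        · simp
      refine ⟨fun i => g (a i), fun q => ?_⟩
      constructor
      · rintro ⟨z, hz⟩
        refine ⟨g z, ?_⟩
        rw [← e]
        exact (BF.iso g hg n (vecCons z a)).symm.trans hz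
      · rintro ⟨z, hz⟩
        refine ⟨g.symm z, ?_⟩
        have h2 := BF.iso (Φ := Φ) g hg n (vecCons (g.symm z) a)
        rw [e, Equiv.apply_symm_apply] at h2
        exact h2.trans hz
    obtain ⟨r, hr1, hr2⟩ := reps (meas_KK Φ R0) hP hne (ι := Fin k → ℕ) (κ := ℕ)
      (fun a q c => ∃ z, BF Φ n (toI c) (vecCons z a) (toI (s q).1) (s q).2)
      (fun a q => Measurable.exists fun z => meas_BF n _ (hs1 q).1 _) hE
    refine ⟨r, hr1, fun c hc a => ?_⟩
    obtain ⟨m, hm⟩ := hr2 c hc a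
    refine ⟨m, fun z => ?_, fun z => ?_⟩
    · obtain ⟨q, hq⟩ := hs2 c hc (vecCons z a)
      obtain ⟨z', hz'⟩ := (hm q).1 ⟨z, hq⟩
      exact ⟨z', hq.trans hz'.symm⟩
    · obtain ⟨q, hq⟩ := hs2 _ (hr1 m) (vecCons z (r m).2)
      obtain ⟨z', hz'⟩ := (hm q).2 ⟨z, hq⟩
      exact ⟨z', hz'.trans hq.symm⟩

/-- Equivalence at all finite levels. -/
def Om (Φ : C2 L) {k : ℕ} (I : Interp L ℕ) (a : Fin k → ℕ) (I' : Interp L ℕ) (a' : Fin k → ℕ) :
    Prop := ∀ n, BF Φ n I a I' a'

theorem om_ct [∀ n, Countable (L.Relations n)] {Φ : C2 L} {R0 : L.Relations 2}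
    (hP : ¬ PerfK (KK Φ R0)) (hne : (KK Φ R0).Nonempty) (k : ℕ) :
    ∃ r : ℕ → Code L × (Fin k → ℕ), (∀ i, (r i).1 ∈ KK Φ R0) ∧
      ∀ c ∈ KK Φ R0, ∀ a, ∃ i, Om Φ (toI c) a (toI (r i).1) (r i).2 := by
  choose s hs1 hs2 using fun n => bf_ct hP hne n k
  obtain ⟨r, hr1, hr2⟩ := reps (meas_KK Φ R0) hP hne (ι := Fin k → ℕ) (κ := ℕ × ℕ)
    (fun a q c => BF Φ q.1 (toI c) a (toI (s q.1 q.2).1) (s q.1 q.2).2)
    (fun a q => meas_BF _ _ (hs1 q.1 q.2).1 _)
    (fun c c' g hg a => ⟨fun i => g (a i), fun q =>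
      ⟨fun h => (BF.iso g hg q.1 a).symm.trans h, fun h => (BF.iso g hg q.1 a).trans h⟩⟩)
  refine ⟨r, hr1, fun c hc a => ?_⟩
  obtain ⟨m, hm⟩ := hr2 c hc a
  refine ⟨m, fun n => ?_⟩
  obtain ⟨q, hq⟩ := hs2 n c hc a
  exact hq.trans ((hm (n, q)).1 hq).symm

/-- Countably many models up to the set of realised types. -/
theorem set_ct [∀ n, Countable (L.Relations n)] {Φ : C2 L} {R0 : L.Relations 2}
    (hP : ¬ PerfK (KK Φ R0)) (hne : (KK Φ R0).Nonempty) (k : ℕ) :
    ∃ r : ℕ → Code L, (∀ i, r i ∈ KK Φ R0) ∧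
      ∀ c ∈ KK Φ R0, ∃ i,
        (∀ a : Fin k → ℕ, ∃ a', Om Φ (toI c) a (toI (r i)) a') ∧
        (∀ a' : Fin k → ℕ, ∃ a, Om Φ (toI c) a (toI (r i)) a') := by
  obtain ⟨s, hs1, hs2⟩ := om_ct hP hne k
  have hE : ∀ c c' : Code L, ∀ g : ℕ ≃ ℕ,
      (∀ n (R : L.Relations n) (t : Fin n → ℕ), c ⟨n, R, t⟩ = c' ⟨n, R, fun k => g (t k)⟩) →
      ∀ _ : Unit, ∃ _ : Unit, ∀ q,
        (∃ a, Om Φ (toI c) a (toI (s q).1) (s q).2) ↔
          (∃ a, Om Φ (toI c') a (toI (s q).1) (s q).2) := by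
    intro c c' g hg _
    refine ⟨(), fun q => ?_⟩
    constructor
    · rintro ⟨a, h⟩
      exact ⟨fun i => g (a i), fun n => (BF.iso g hg n a).symm.trans (h n)⟩
    · rintro ⟨a, h⟩
      refine ⟨fun i => g.symm (a i), fun n => ?_⟩
      have h2 := BF.iso (Φ := Φ) g hg n (fun i => g.symm (a i))
      simp only [Equiv.apply_symm_apply] at h2
      exact h2.trans (h n)
  obtain ⟨r, hr1, hr2⟩ := reps (meas_KK Φ R0) hP hne (ι := Unit) (κ := ℕ)
    (fun _ q c => ∃ a, Om Φ (toI c) a (toI (s q).1) (s q).2)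
    (fun _ q => Measurable.exists fun a => Measurable.forall fun n => meas_BF _ _ (hs1 q).1 _) hE
  refine ⟨fun i => (r i).1, hr1, fun c hc => ?_⟩
  obtain ⟨m, hm⟩ := hr2 c hc ()
  refine ⟨m, fun a => ?_, fun a => ?_⟩
  · obtain ⟨q, hq⟩ := hs2 c hc a
    obtain ⟨a', ha'⟩ := (hm q).1 ⟨a, hq⟩
    exact ⟨a', fun n => (hq n).trans (ha' n).symm⟩
  · obtain ⟨q, hq⟩ := hs2 _ (hr1 m) a
    obtain ⟨a', ha'⟩ := (hm q).2 ⟨a, hq⟩
    exact ⟨a', fun n => (ha' n).trans (hq n).symm⟩

end Pool.Agent.H565R2.CO
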