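import Pool.Agent.H565R2.CO.Syn
import Pool.Agent.H565R2.LO2.Dich

set_option autoImplicit false

/-!
Substituting copies of a part of an ordered model, for two-variable logic with counting.
-/

namespace Pool.Agent.H565R2.CO

open FirstOrder Set Topology MeasureTheory
open Pool.Agent.H565R2.FO2 (pick pick_false pick_true pick_self pick_pick Interp bool_fun_cases
  Code toI ofI toI_ofI Iso meas_toI)
open Pool.Agent.H565R2.LO2 (rho SPO vec_pick key en c0 DD key_inj key_c0 key_pos key_dep FB decode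
  Btw Q QI Q_mono meas_Q meas_QI QI_iso rho_iso iso_symm PerfK perfK_of_inv meas_rho meas_SPO)

variable {L : FirstOrder.Language.{0, 0}}

/-- The first element of a pair with data `d` does not depend on the second one. -/
def Free (Φ : C2 L) (d : Dat L) : Prop :=
  ∀ c, ∀ ψ ∈ subs Φ, ev ψ (cond c d (d.map not)) → d.l false c ψ = ⊤

/-- No element of the pair depends on the other. -/
def II (Φ : C2 L) (d : Dat L) : Prop := Free Φ d ∧ Free Φ (d.map not)

theorem II.symm {Φ : C2 L} {d : Dat L} (h : II Φ d) : II Φ (d.map not) := by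
  refine ⟨h.2, ?_⟩
  rw [map_not_not]
  exact h.1

/-- Strict linear orders. -/
def SLO (r : ℕ → ℕ → Prop) : Prop := SPO r ∧ ∀ u w, u ≠ w → r u w ∨ r w u

theorem rho_dat (I : Interp L ℕ) (J : Set (C2 L)) (R : L.Relations 2) (u w : ℕ) :
    rho I R u w ↔ (dat I J u w).a 2 R ![false, true] := by
  unfold rho
  rw [vec_pick]
  exact Iff.rfl

/-- Elements of the extended model. -/
abbrev WW (S : Set ℕ) : Type := {p : ℕ × ℕ // p.2 = 0 ∨ p.1 ∈ S}

instance (S : Set ℕ) : Infinite (WW S) := by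
  refine Infinite.of_injective (fun n : ℕ => (⟨(n, 0), Or.inl rfl⟩ : WW S)) ?_
  intro a b h
  have := congrArg (fun p : WW S => p.1.1) h
  exact this

noncomputable def ew (S : Set ℕ) : ℕ ≃ WW S :=
  (Classical.choice (nonempty_denumerable (WW S))).eqv.symm

/-- the order of the layers -/
def lt (x : ℕ → Bool) (i j : ℕ) : Prop :=
  i ≠ 0 ∧ (j = 0 ∨ key x (en (i - 1)) < key x (en (j - 1)))

theorem lt_asym (x : ℕ → Bool) {i j : ℕ} (h : lt x i j) : ¬ lt x j i := by
  rintro ⟨h1, h2⟩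
  obtain ⟨h3, h4⟩ := h
  rcases h2 with h2 | h2
  · omega
  · rcases h4 with h4 | h4
    · omega
    · exact lt_asymm h2 h4

theorem lt_tot (x : ℕ → Bool) {i j : ℕ} (hne : i ≠ j) : lt x i j ∨ lt x j i := by
  by_cases h1 : i = 0
  · exact Or.inr ⟨by omega, Or.inl h1⟩
  · by_cases h2 : j = 0
    · exact Or.inl ⟨h1, Or.inl h2⟩
    · have hne2 : key x (en (i - 1)) ≠ key x (en (j - 1)) := by
        intro h
        have := en.injective (key_inj x h)
        omega
      rcases lt_or_gt_of_ne hne2 with h | h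
      · exact Or.inl ⟨h1, Or.inr h⟩
      · exact Or.inr ⟨h2, Or.inr h⟩

theorem lt_trans' (x : ℕ → Bool) {i j k : ℕ} (h1 : lt x i j) (h2 : lt x j k) : lt x i k := by
  obtain ⟨a1, a2⟩ := h1
  obtain ⟨b1, b2⟩ := h2
  refine ⟨a1, ?_⟩
  rcases b2 with b2 | b2
  · exact Or.inl b2
  · rcases a2 with a2 | a2
    · omega
    · exact Or.inr (a2.trans b2)

/-- A configuration allowing the substitution of copies of `S`. -/
structure Cg (Φ : C2 L) (R0 : L.Relations 2) where
  I : Interp L ℕ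
  hI : I ∈ Md Φ
  hO : SLO (rho I R0)
  S : Set ℕ
  a : ℕ
  ha : a ∈ S
  hS : ∀ x y, x ∉ S → y ∈ S → Free Φ (dat I (subs Φ) x y)
  X : ℕ → ℕ → Dat L
  hX : ∀ x y, x ∈ S → y ∈ S → (x = y ∨ rho I R0 x y) →
    X x y ∈ Al Φ ∧ II Φ (X x y) ∧ ¬ (X x y).e ∧
      (X x y).map (fun _ => false) = dat I (subs Φ) x x ∧
      (X x y).map (fun _ => true) = dat I (subs Φ) y y ∧
      (X x y).a 2 R0 ![false, true] ∧ ¬ (X x y).a 2 R0 ![true, false]

namespace Cg

variable {Φ : C2 L} {R0 : L.Relations 2} (C : Cg Φ R0)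

/-- the old element -/
noncomputable def fu (u : ℕ) : ℕ := (ew C.S u).1.1

/-- the layer -/
noncomputable def ly (u : ℕ) : ℕ := (ew C.S u).1.2

theorem ly_or (u : ℕ) : C.ly u = 0 ∨ C.fu u ∈ C.S := (ew C.S u).2

theorem fl_inj {u w : ℕ} (h1 : C.fu u = C.fu w) (h2 : C.ly u = C.ly w) : u = w := by
  apply (ew C.S).injective
  apply Subtype.ext
  exact Prod.ext h1 h2

open Classical in
/-- the element with given projections -/
noncomputable def mq (z i : ℕ) : ℕ :=
  if h : i = 0 ∨ z ∈ C.S then (ew C.S).symm ⟨(z, i), h⟩ else 0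

theorem fu_mq {z i : ℕ} (h : i = 0 ∨ z ∈ C.S) : C.fu (C.mq z i) = z := by
  unfold fu mq
  rw [dif_pos h, Equiv.apply_symm_apply]

theorem ly_mq {z i : ℕ} (h : i = 0 ∨ z ∈ C.S) : C.ly (C.mq z i) = i := by
  unfold ly mq
  rw [dif_pos h, Equiv.apply_symm_apply]

/-- pairs of copies in different layers -/
def cr (u w : ℕ) : Prop := C.ly u ≠ C.ly w ∧ C.fu u ∈ C.S ∧ C.fu w ∈ C.S

theorem cr_symm {u w : ℕ} (h : C.cr u w) : C.cr w u := ⟨Ne.symm h.1, h.2.2, h.2.1⟩

/-- the order of the extended model -/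
def Lt (x : ℕ → Bool) (u w : ℕ) : Prop :=
  rho C.I R0 (C.fu u) (C.fu w) ∨ (C.fu u = C.fu w ∧ lt x (C.ly u) (C.ly w))

theorem Lt_asym (x : ℕ → Bool) {u w : ℕ} (h : C.Lt x u w) : ¬ C.Lt x w u := by
  have hi := C.hO.1.1
  have ht := C.hO.1.2
  rintro (h2 | ⟨h2, h3⟩)
  · rcases h with h | ⟨h, h'⟩
    · exact hi _ (ht _ _ _ h h2)
    · rw [h] at h2; exact hi _ h2
  · rcases h with h | ⟨h, h'⟩
    · rw [h2] at h; exact hi _ h
    · exact lt_asym x h3 h'

theorem Lt_tot (x : ℕ → Bool) {u w : ℕ} (h : u ≠ w) : C.Lt x u w ∨ C.Lt x w u := by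
  by_cases h1 : C.fu u = C.fu w
  · have h2 : C.ly u ≠ C.ly w := fun h2 => h (C.fl_inj h1 h2)
    rcases lt_tot x h2 with h3 | h3
    · exact Or.inl (Or.inr ⟨h1, h3⟩)
    · exact Or.inr (Or.inr ⟨h1.symm, h3⟩)
  · rcases C.hO.2 _ _ h1 with h3 | h3
    · exact Or.inl (Or.inl h3)
    · exact Or.inr (Or.inl h3)

theorem Lt_trans (x : ℕ → Bool) {u v w : ℕ} (h1 : C.Lt x u v) (h2 : C.Lt x v w) :
    C.Lt x u w := by
  have ht := C.hO.1.2
  rcases h1 with h1 | ⟨h1, h1'⟩
  · rcases h2 with h2 | ⟨h2, h2'⟩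
    · exact Or.inl (ht _ _ _ h1 h2)
    · rw [h2] at h1; exact Or.inl h1
  · rcases h2 with h2 | ⟨h2, h2'⟩
    · rw [← h1] at h2; exact Or.inl h2
    · exact Or.inr ⟨h1.trans h2, lt_trans' x h1' h2'⟩

theorem Lt_irr (x : ℕ → Bool) (u : ℕ) : ¬ C.Lt x u u := fun h => C.Lt_asym x h h

open Classical in
/-- data of the extended model -/
noncomputable def dl (x : ℕ → Bool) (u w : ℕ) : Dat L :=
  if C.cr u w then
    (if C.Lt x u w then C.X (C.fu u) (C.fu w) else (C.X (C.fu w) (C.fu u)).map not)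
  else dat C.I (subs Φ) (C.fu u) (C.fu w)

theorem cr_le (x : ℕ → Bool) {u w : ℕ} (h : C.Lt x u w) :
    C.fu u = C.fu w ∨ rho C.I R0 (C.fu u) (C.fu w) := by
  rcases h with h | h
  · exact Or.inr h
  · exact Or.inl h.1

theorem X_of (x : ℕ → Bool) {u w : ℕ} (hc : C.cr u w) (h : C.Lt x u w) :
    C.X (C.fu u) (C.fu w) ∈ Al Φ ∧ II Φ (C.X (C.fu u) (C.fu w)) ∧ ¬ (C.X (C.fu u) (C.fu w)).e ∧
      (C.X (C.fu u) (C.fu w)).map (fun _ => false) = dat C.I (subs Φ) (C.fu u) (C.fu u) ∧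
      (C.X (C.fu u) (C.fu w)).map (fun _ => true) = dat C.I (subs Φ) (C.fu w) (C.fu w) ∧
      (C.X (C.fu u) (C.fu w)).a 2 R0 ![false, true] ∧
      ¬ (C.X (C.fu u) (C.fu w)).a 2 R0 ![true, false] :=
  C.hX _ _ hc.2.1 hc.2.2 (C.cr_le x h)

theorem cr_ne {u w : ℕ} (h : C.cr u w) : u ≠ w := by
  rintro rfl
  exact h.1 rfl

/-- the data of cross pairs -/
theorem dl_cr (x : ℕ → Bool) {u w : ℕ} (hc : C.cr u w) :
    C.dl x u w ∈ Al Φ ∧ II Φ (C.dl x u w) ∧ ¬ (C.dl x u w).e ∧
      (C.dl x u w).map (fun _ => false) = dat C.I (subs Φ) (C.fu u) (C.fu u) ∧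
      (C.dl x u w).map (fun _ => true) = dat C.I (subs Φ) (C.fu w) (C.fu w) ∧
      ((C.dl x u w).a 2 R0 ![false, true] ↔ C.Lt x u w) ∧
      C.dl x w u = (C.dl x u w).map not := by
  have hc' := C.cr_symm hc
  unfold dl
  rw [if_pos hc, if_pos hc']
  rcases C.Lt_tot x (C.cr_ne hc) with h | h
  · obtain ⟨h1, h2, h3, h4, h5, h6, h7⟩ := C.X_of x hc h
    rw [if_pos h, if_neg (C.Lt_asym x h)]
    exact ⟨h1, h2, h3, h4, h5, ⟨fun _ => h, fun _ => h6⟩, rfl⟩
  · obtain ⟨h1, h2, h3, h4, h5, h6, h7⟩ := C.X_of x hc' h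
    rw [if_pos h, if_neg (C.Lt_asym x h)]
    refine ⟨al_not h1, h2.symm, ?_, ?_, ?_, ?_, (map_not_not _).symm⟩
    · simp only [Dat.map]
      rintro (h8 | h8)
      · exact absurd h8 (by simp)
      · exact h3 h8
    · rw [Dat.map_map, ← h5]; rfl
    · rw [Dat.map_map, ← h4]; rfl
    · constructor
      · intro h8
        exfalso
        apply h7
        have e : (fun k => not ((![false, true] : Fin 2 → Bool) k)) = ![true, false] := by
          funext k; fin_cases k <;> rfl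
        have h9 : (C.X (C.fu w) (C.fu u)).a 2 R0
            (fun k => not ((![false, true] : Fin 2 → Bool) k)) := h8
        rw [e] at h9
        exact h9
      · intro h8
        exact absurd h (C.Lt_asym x h8)

theorem dl_nc (x : ℕ → Bool) {u w : ℕ} (hc : ¬ C.cr u w) :
    C.dl x u w = dat C.I (subs Φ) (C.fu u) (C.fu w) := by
  unfold dl
  rw [if_neg hc]

theorem dl_self (x : ℕ → Bool) (u : ℕ) : C.dl x u u = dat C.I (subs Φ) (C.fu u) (C.fu u) :=
  C.dl_nc x (fun h => h.1 rfl)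

theorem nc_eq {u w : ℕ} (hc : ¬ C.cr u w) (h : C.fu u = C.fu w) : u = w := by
  by_contra hne
  have h2 : C.ly u ≠ C.ly w := fun h2 => hne (C.fl_inj h h2)
  apply hc
  refine ⟨h2, ?_⟩
  rcases C.ly_or u with h3 | h3
  · rcases C.ly_or w with h4 | h4
    · omega
    · exact ⟨by rw [h]; exact h4, h4⟩
  · exact ⟨h3, by rw [← h]; exact h3⟩

theorem dl_swap (x : ℕ → Bool) (u w : ℕ) : C.dl x w u = (C.dl x u w).map not := by
  by_cases hc : C.cr u w
  · exact (C.dl_cr x hc).2.2.2.2.2.2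
  · rw [C.dl_nc x hc, C.dl_nc x (fun h => hc (C.cr_symm h)), dat_not]

theorem dl_coh (x : ℕ → Bool) : Coh (C.dl x) := by
  refine ⟨?_, ?_⟩
  · intro u w σ
    rcases bool_fun_cases σ with h2 | h2 | h2 | h2
    · subst h2
      simp only [pick_false]
      rw [C.dl_self]
      by_cases hc : C.cr u w
      · exact (C.dl_cr x hc).2.2.2.1.symm
      · rw [C.dl_nc x hc, dat_f]
    · subst h2
      simp only [pick_true]
      rw [C.dl_self]
      by_cases hc : C.cr u w
      · exact (C.dl_cr x hc).2.2.2.2.1.symm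
      · rw [C.dl_nc x hc, dat_t]
    · subst h2
      simp only [id, pick_false, pick_true]
      exact (Dat.map_id _).symm
    · subst h2
      simp only [Bool.not_false, Bool.not_true, pick_false, pick_true]
      exact C.dl_swap x u w
  · intro u w
    by_cases hc : C.cr u w
    · exact ⟨fun h => absurd h (C.dl_cr x hc).2.2.1, fun h => absurd h (C.cr_ne hc)⟩
    · rw [C.dl_nc x hc]
      constructor
      · intro h
        exact C.nc_eq hc h
      · rintro rfl
        rfl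

/-- the extended model -/
noncomputable def Mo (x : ℕ → Bool) : Interp L ℕ := mkI (C.dl x)

theorem dl_al (x : ℕ → Bool) (u w : ℕ) : C.dl x u w ∈ Al Φ := by
  by_cases hc : C.cr u w
  · exact (C.dl_cr x hc).1
  · rw [C.dl_nc x hc]; exact al_dat C.hI _ _

/-- the label is preserved by the data -/
theorem dl_l (x : ℕ → Bool) (u w : ℕ) :
    (C.dl x u w).l false = lab C.I (subs Φ) (C.fu u) := by
  have h := (C.dl_coh x).diag u w false
  rw [pick_false, C.dl_self] at h
  have h2 : ((C.dl x u w).map (fun _ => false)).l false = (C.dl x u w).l false := rfl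
  rw [← h2, ← h]
  rfl

open Classical in
/-- the copy of an old element seen from `u` -/
noncomputable def io (u z : ℕ) : ℕ := C.mq z (if z ∈ C.S then C.ly u else 0)

theorem io_or (u z : ℕ) [Decidable (z ∈ C.S)] :
    (if z ∈ C.S then C.ly u else 0) = 0 ∨ z ∈ C.S := by
  by_cases h : z ∈ C.S
  · exact Or.inr h
  · left; rw [if_neg h]

theorem fu_io (u z : ℕ) : C.fu (C.io u z) = z := by
  classical
  exact C.fu_mq (C.io_or u z)

theorem io_inj (u : ℕ) : Function.Injective (C.io u) := by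
  intro z z' h
  have := congrArg C.fu h
  rwa [C.fu_io, C.fu_io] at this

theorem dl_io (x : ℕ → Bool) (u z : ℕ) : C.dl x u (C.io u z) = dat C.I (subs Φ) (C.fu u) z := by
  classical
  have hc : ¬ C.cr u (C.io u z) := by
    rintro ⟨h1, h2, h3⟩
    rw [C.fu_io] at h3
    apply h1
    unfold io
    rw [C.ly_mq (C.io_or u z), if_pos h3]
  rw [C.dl_nc x hc, C.fu_io]

theorem free_of (x : ℕ → Bool) (u w : ℕ) (h : w ∉ Set.range (C.io u)) :
    Free Φ (C.dl x u w) := by
  classical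
  have h1 : C.ly w ≠ (if C.fu w ∈ C.S then C.ly u else 0) := by
    intro h2
    apply h
    refine ⟨C.fu w, ?_⟩
    apply C.fl_inj
    · rw [C.fu_io]
    · unfold io
      rw [C.ly_mq (C.io_or u _)]
      exact h2.symm
  have h2 : C.fu w ∈ C.S := by
    by_contra h3
    rw [if_neg h3] at h1
    rcases C.ly_or w with h4 | h4
    · exact h1 h4
    · exact h3 h4
  rw [if_pos h2] at h1
  by_cases h3 : C.fu u ∈ C.S
  · exact (C.dl_cr x ⟨Ne.symm h1, h3, h2⟩).2.1.1
  · rw [C.dl_nc x (fun h => h3 h.2.1)]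
    exact C.hS _ _ h3 h2

theorem Mo_mem (x : ℕ → Bool) : C.Mo x ∈ Md Φ := by
  have hc := criterion Φ (C.Mo x) (fun u => (C.dl x u u).l false) ?_ ?_
  · exact hc.2
  · intro u w
    rw [Mo, mkd_mkI (C.dl_coh x)]
    exact C.dl_al x u w
  · intro u c ψ hψ
    rw [Mo]
    simp only [mkd_mkI (C.dl_coh x)]
    have hs : subs ψ ⊆ subs Φ := subs_trans hψ
    have hl : (C.dl x u u).l false c ψ = Set.encard {z | ev ψ (cond c
        (dat C.I (subs Φ) (C.fu u) z) (dat C.I (subs Φ) z (C.fu u)))} := by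
      rw [C.dl_l]
      unfold lab
      rw [if_pos hψ]
      cases c
      · simp only [cond_false]
        congr 1
        ext z
        exact (ev_dat _ _ _ hs _ _).symm
      · simp only [cond_true]
        congr 1
        ext z
        exact (ev_dat _ _ _ hs _ _).symm
    have hcond : ∀ w, cond c (C.dl x u w) (C.dl x w u) =
        cond c (C.dl x u w) ((C.dl x u w).map not) := by
      intro w
      rw [C.dl_swap x u w]
    have hcond2 : ∀ z, cond c (dat C.I (subs Φ) (C.fu u) z) (dat C.I (subs Φ) z (C.fu u)) =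
        cond c (C.dl x u (C.io u z)) (C.dl x (C.io u z) u) := by
      intro z
      rw [C.dl_swap x u (C.io u z), C.dl_io, dat_not]
    simp only [hcond2] at hl
    rw [hl]
    have himg : C.io u '' {z | ev ψ (cond c (C.dl x u (C.io u z)) (C.dl x (C.io u z) u))} ⊆
        {w | ev ψ (cond c (C.dl x u w) (C.dl x w u))} := by
      rintro _ ⟨z, hz, rfl⟩
      exact hz
    have hcard := (C.io_inj u).encard_image
      {z | ev ψ (cond c (C.dl x u (C.io u z)) (C.dl x (C.io u z) u))}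
    by_cases hsub : {w | ev ψ (cond c (C.dl x u w) (C.dl x w u))} ⊆
        C.io u '' {z | ev ψ (cond c (C.dl x u (C.io u z)) (C.dl x (C.io u z) u))}
    · rw [← hcard, himg.antisymm hsub]
    · rw [Set.not_subset] at hsub
      obtain ⟨w, hw, hw2⟩ := hsub
      have hwr : w ∉ Set.range (C.io u) := by
        rintro ⟨z, rfl⟩
        exact hw2 ⟨z, hw, rfl⟩
      have hf := C.free_of x u w hwr c ψ hψ (by rw [← hcond w]; exact hw)
      have htop : (C.dl x u u).l false c ψ = ⊤ := by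
        rw [C.dl_l x u u, ← C.dl_l x u w]
        exact hf
      rw [hl] at htop
      rw [htop]
      symm
      rw [← top_le_iff, ← htop, ← hcard]
      exact Set.encard_le_encard himg

theorem Mo_rho (x : ℕ → Bool) (u w : ℕ) : rho (C.Mo x) R0 u w ↔ C.Lt x u w := by
  have h : rho (C.Mo x) R0 u w ↔ (C.dl x u w).a 2 R0 ![false, true] := by
    unfold rho
    rw [vec_pick]
    exact mkI_iff (C.dl_coh x) R0 u w _
  rw [h]
  by_cases hc : C.cr u w
  · exact (C.dl_cr x hc).2.2.2.2.2.1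
  · rw [C.dl_nc x hc, ← rho_dat]
    constructor
    · intro h; exact Or.inl h
    · rintro (h | ⟨h1, h2⟩)
      · exact h
      · exfalso
        have := C.nc_eq hc h1
        subst this
        exact lt_asym x h2 h2

theorem Mo_slo (x : ℕ → Bool) : SLO (rho (C.Mo x) R0) := by
  refine ⟨⟨?_, ?_⟩, ?_⟩
  · intro u
    rw [C.Mo_rho]
    exact C.Lt_irr x u
  · intro u v w
    rw [C.Mo_rho, C.Mo_rho, C.Mo_rho]
    exact C.Lt_trans x
  · intro u w h
    rw [C.Mo_rho, C.Mo_rho]
    exact C.Lt_tot x h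

end Cg

end Pool.Agent.H565R2.CO
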