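import Pool.Agent.H565R2.FO2.Per

set_option autoImplicit false

/-!
Two-variable formulas with counting quantifiers of the infinitary logic with countable
conjunctions, and pair data.
-/

namespace Pool.Agent.H565R2.CO

open FirstOrder Set
open Pool.Agent.H565R2.FO2 (pick pick_false pick_true pick_self pick_pick Interp bool_fun_cases)

/-- Two-variable formulas with counting of `L_{omega_1 omega}`: the two variables are named
`false` and `true`; `ex b n φ` says that at least `n` values of the variable `b` satisfy `φ`. -/
inductive C2 (L : FirstOrder.Language.{0, 0}) : Type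
  | eq : Bool → Bool → C2 L
  | rel : {n : ℕ} → L.Relations n → (Fin n → Bool) → C2 L
  | neg : C2 L → C2 L
  | inf : (ℕ → C2 L) → C2 L
  | ex : Bool → ℕ → C2 L → C2 L

variable {L : FirstOrder.Language.{0, 0}}

/-- Satisfaction of a two-variable formula with counting. -/
def Rl {M : Type} (I : Interp L M) : C2 L → M → M → Prop
  | .eq i j, x, y => pick x y i = pick x y j
  | @C2.rel _ n R v, x, y => I n R (fun k => pick x y (v k))
  | .neg φ, x, y => ¬ Rl I φ x y
  | .inf f, x, y => ∀ n, Rl I (f n) x y
  | .ex false n φ, _, y => (n : ℕ∞) ≤ Set.encard {z | Rl I φ z y}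
  | .ex true n φ, x, _ => (n : ℕ∞) ≤ Set.encard {z | Rl I φ x z}

/-- Subformulas. -/
def subs : C2 L → Set (C2 L)
  | .eq i j => {.eq i j}
  | .rel R v => {.rel R v}
  | .neg φ => insert (.neg φ) (subs φ)
  | .inf f => insert (.inf f) (⋃ n, subs (f n))
  | .ex b n φ => insert (.ex b n φ) (subs φ)

theorem mem_subs (φ : C2 L) : φ ∈ subs φ := by
  cases φ <;> simp [subs]

theorem subs_countable (φ : C2 L) : (subs φ).Countable := by
  induction φ with
  | eq i j => exact countable_singleton _
  | rel R v => exact countable_singleton _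
  | neg φ ih => exact ih.insert _
  | inf f ih => exact (countable_iUnion ih).insert _
  | ex b n φ ih => exact ih.insert _

theorem subs_trans {φ ψ : C2 L} (h : ψ ∈ subs φ) : subs ψ ⊆ subs φ := by
  induction φ with
  | eq i j => rw [subs, mem_singleton_iff] at h; rw [h]
  | rel R v => rw [subs, mem_singleton_iff] at h; rw [h]
  | neg φ ih =>
    rcases h with h | h
    · rw [h]
    · exact (ih h).trans (subset_insert _ _)
  | inf f ih =>
    rcases h with h | h
    · rw [h]
    · obtain ⟨n, hn⟩ := mem_iUnion.1 h
      exact (ih n hn).trans ((subset_iUnion (fun n => subs (f n)) n).trans (subset_insert _ _))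
  | ex b n φ ih =>
    rcases h with h | h
    · rw [h]
    · exact (ih h).trans (subset_insert _ _)

/-- Data of a pair of elements. -/
structure Dat (L : FirstOrder.Language.{0, 0}) where
  e : Prop
  a : Interp L Bool
  l : Bool → Bool → C2 L → ℕ∞

theorem Dat.ext' {d d' : Dat L} (h1 : d.e ↔ d'.e) (h2 : ∀ n R v, d.a n R v ↔ d'.a n R v)
    (h3 : ∀ b c ψ, d.l b c ψ = d'.l b c ψ) : d = d' := by
  cases d; cases d'
  simp only [Dat.mk.injEq]
  exact ⟨propext h1, by funext n R v; exact propext (h2 n R v),
    by funext b c ψ; exact h3 b c ψ⟩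

open Classical in
/-- The label of an element: the numbers of witnesses. -/
noncomputable def lab {M : Type} (I : Interp L M) (J : Set (C2 L)) (x : M) : Bool → C2 L → ℕ∞ :=
  fun c ψ => if ψ ∈ J then
    cond c (Set.encard {z | Rl I ψ x z}) (Set.encard {z | Rl I ψ z x}) else 0

/-- Data of a pair, from an interpretation and labels. -/
def mkd {M : Type} (I : Interp L M) (lb : M → Bool → C2 L → ℕ∞) (x y : M) : Dat L :=
  ⟨x = y, fun n R v => I n R (fun k => pick x y (v k)), fun b => lb (pick x y b)⟩

/-- The data of a pair in an interpretation. -/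
noncomputable def dat {M : Type} (I : Interp L M) (J : Set (C2 L)) (x y : M) : Dat L :=
  mkd I (lab I J) x y

/-- Substitution of variables in data. -/
def Dat.map (d : Dat L) (σ : Bool → Bool) : Dat L :=
  ⟨σ false = σ true ∨ d.e, fun n R v => d.a n R (fun k => σ (v k)), fun b => d.l (σ b)⟩

theorem mkd_map {M : Type} (I : Interp L M) (lb : M → Bool → C2 L → ℕ∞) (x y : M)
    (σ : Bool → Bool) :
    mkd I lb (pick x y (σ false)) (pick x y (σ true)) = (mkd I lb x y).map σ := by
  apply Dat.ext'
  · simp only [mkd, Dat.map]
    cases h1 : σ false <;> cases h2 : σ true <;> simp [pick, eq_comm]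
  · intro n R v
    simp only [mkd, Dat.map, pick_pick]
  · intro b c ψ
    simp only [mkd, Dat.map, pick_pick]

theorem Dat.map_id (d : Dat L) : d.map id = d := by
  apply Dat.ext' <;> simp [Dat.map]

theorem Dat.map_map (d : Dat L) (σ τ : Bool → Bool) :
    (d.map σ).map τ = d.map (σ ∘ τ) := by
  apply Dat.ext'
  · simp only [Dat.map, Function.comp]
    cases h1 : τ false <;> cases h2 : τ true <;> simp [eq_comm]
  · intro n R v; rfl
  · intro b c ψ; rfl

theorem map_not_not (d : Dat L) : (d.map not).map not = d := by
  rw [Dat.map_map]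
  have : (not ∘ not : Bool → Bool) = id := by funext b; simp
  rw [this, Dat.map_id]

theorem dat_map {M : Type} (I : Interp L M) (J : Set (C2 L)) (x y : M) (σ : Bool → Bool) :
    (dat I J x y).map σ = dat I J (pick x y (σ false)) (pick x y (σ true)) :=
  (mkd_map I (lab I J) x y σ).symm

theorem dat_not {M : Type} (I : Interp L M) (J : Set (C2 L)) (x y : M) :
    (dat I J x y).map not = dat I J y x := by
  rw [dat_map]; rfl

theorem dat_f {M : Type} (I : Interp L M) (J : Set (C2 L)) (x y : M) :
    (dat I J x y).map (fun _ => false) = dat I J x x := by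
  rw [dat_map]; rfl

theorem dat_t {M : Type} (I : Interp L M) (J : Set (C2 L)) (x y : M) :
    (dat I J x y).map (fun _ => true) = dat I J y y := by
  rw [dat_map]; rfl

/-- Evaluation of a formula on data. -/
def ev : C2 L → Dat L → Prop
  | .eq i j, d => i = j ∨ d.e
  | @C2.rel _ n R v, d => d.a n R v
  | .neg φ, d => ¬ ev φ d
  | .inf f, d => ∀ n, ev (f n) d
  | .ex false n φ, d => (n : ℕ∞) ≤ d.l true false φ
  | .ex true n φ, d => (n : ℕ∞) ≤ d.l false true φ

theorem ev_dat {M : Type} (I : Interp L M) (J : Set (C2 L)) (φ : C2 L) (hJ : subs φ ⊆ J)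
    (x y : M) : ev φ (dat I J x y) ↔ Rl I φ x y := by
  induction φ generalizing x y with
  | eq i j =>
    simp only [ev, Rl, dat, mkd]
    cases i <;> cases j <;> simp [pick, eq_comm]
  | rel R v => rfl
  | neg φ ih =>
    simp only [ev, Rl]
    rw [ih ((subset_insert _ _).trans hJ)]
  | inf f ih =>
    simp only [ev, Rl]
    refine forall_congr' fun n => ih n ?_ x y
    exact (subset_iUnion (fun n => subs (f n)) n).trans ((subset_insert _ _).trans hJ)
  | ex b n φ ih =>
    have hφ : φ ∈ J := hJ (mem_insert_of_mem _ (mem_subs φ))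
    cases b
    · simp only [ev, Rl, dat, mkd, lab, pick_true, cond_false, if_pos hφ]
    · simp only [ev, Rl, dat, mkd, lab, pick_false, cond_true, if_pos hφ]

/-- Interpretations on the natural numbers in which the universal closure of `Φ` holds. -/
def Md (Φ : C2 L) : Set (Interp L ℕ) := {I | ∀ x y, Rl I Φ x y}

/-- Data realised in models. -/
def Al (Φ : C2 L) : Set (Dat L) := {d | ∃ I ∈ Md Φ, ∃ x y, d = dat I (subs Φ) x y}

theorem mkd_l {M : Type} (I : Interp L M) (lb : M → Bool → C2 L → ℕ∞) (x y : M) (b : Bool) :
    (mkd I lb x y).l b = lb (pick x y b) := rfl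

/-- Criterion for a labelled interpretation to be a model. -/
theorem criterion (Φ : C2 L) {W : Type} (I : Interp L W) (lb : W → Bool → C2 L → ℕ∞)
    (hA : ∀ u w, mkd I lb u w ∈ Al Φ)
    (hB : ∀ u c, ∀ ψ ∈ subs Φ,
      lb u c ψ = Set.encard {w | ev ψ (cond c (mkd I lb u w) (mkd I lb w u))}) :
    lab I (subs Φ) = lb ∧ ∀ u w, Rl I Φ u w := by
  classical
  have hJ : ∀ u c ψ, ψ ∉ subs Φ → lb u c ψ = 0 := by
    intro u c ψ h
    obtain ⟨I', -, x, y, hd⟩ := hA u u
    have h1 : (mkd I lb u u).l false c ψ = lb u c ψ := rfl
    rw [← h1, hd]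
    simp only [dat, mkd, lab, if_neg h]
  have key : ∀ ψ, subs ψ ⊆ subs Φ → ∀ u w, (ev ψ (mkd I lb u w) ↔ Rl I ψ u w) := by
    intro ψ
    induction ψ with
    | eq i j =>
      intro _ u w
      simp only [ev, Rl, mkd]
      cases i <;> cases j <;> simp [pick, eq_comm]
    | rel R v => intro _ u w; rfl
    | neg φ ih =>
      intro h u w
      simp only [ev, Rl]
      rw [ih ((subset_insert _ _).trans h)]
    | inf f ih =>
      intro h u w
      simp only [ev, Rl]
      refine forall_congr' fun n => ih n ?_ u w
      exact (subset_iUnion (fun n => subs (f n)) n).trans ((subset_insert _ _).trans h)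
    | ex b n φ ih =>
      intro h u w
      have hφ : subs φ ⊆ subs Φ := (subset_insert _ _).trans h
      cases b
      · simp only [ev, Rl, mkd_l, pick_true]
        rw [hB w false φ (hφ (mem_subs φ))]
        simp only [cond_false]
        have : {w' | ev φ (mkd I lb w' w)} = {z | Rl I φ z w} := by
          ext z; exact ih hφ z w
        rw [this]
      · simp only [ev, Rl, mkd_l, pick_false]
        rw [hB u true φ (hφ (mem_subs φ))]
        simp only [cond_true]
        have : {w' | ev φ (mkd I lb u w')} = {z | Rl I φ u z} := by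
          ext z; exact ih hφ u z
        rw [this]
  refine ⟨?_, ?_⟩
  · funext u c ψ
    by_cases hψ : ψ ∈ subs Φ
    · have hs : subs ψ ⊆ subs Φ := subs_trans hψ
      rw [hB u c ψ hψ]
      simp only [lab, if_pos hψ]
      cases c
      · simp only [cond_false]
        congr 1
        ext z; exact (key ψ hs z u).symm
      · simp only [cond_true]
        congr 1
        ext z; exact (key ψ hs u z).symm
    · rw [hJ u c ψ hψ]
      simp only [lab, if_neg hψ]
  · intro u w
    rw [← key Φ subset_rfl]
    obtain ⟨I', hI', x, y, hd⟩ := hA u w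
    rw [hd, ev_dat _ _ _ subset_rfl]
    exact hI' x y

theorem al_dat {Φ : C2 L} {I : Interp L ℕ} (hI : I ∈ Md Φ) (x y : ℕ) :
    dat I (subs Φ) x y ∈ Al Φ := ⟨I, hI, x, y, rfl⟩

theorem al_not {Φ : C2 L} {d : Dat L} (hd : d ∈ Al Φ) : d.map not ∈ Al Φ := by
  obtain ⟨I, hI, x, y, rfl⟩ := hd
  exact ⟨I, hI, y, x, dat_not _ _ _ _⟩

/-- The interpretation given by pair data. -/
def mkI {W : Type} (δ : W → W → Dat L) : Interp L W :=
  fun n R t => ∃ u w v, t = (fun k => pick u w (v k)) ∧ (δ u w).a n R v

structure Coh {W : Type} (δ : W → W → Dat L) : Prop where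
  map : ∀ u w (σ : Bool → Bool), δ (pick u w (σ false)) (pick u w (σ true)) = (δ u w).map σ
  e : ∀ u w, (δ u w).e ↔ u = w

theorem Coh.diag {W : Type} {δ : W → W → Dat L} (h : Coh δ) (u w : W) (b : Bool) :
    δ (pick u w b) (pick u w b) = (δ u w).map (fun _ => b) := h.map u w (fun _ => b)

theorem Coh.same {W : Type} {δ : W → W → Dat L} (h : Coh δ) (u w : W) {n : ℕ}
    (R : L.Relations n) (v1 v2 : Fin n → Bool)
    (hv : (fun k => pick u w (v1 k)) = (fun k => pick u w (v2 k))) :
    (δ u w).a n R v1 ↔ (δ u w).a n R v2 := by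
  by_cases huw : u = w
  · subst huw
    have h1 := h.diag u u false
    rw [pick_self] at h1
    have h2 : ∀ v, (δ u u).a n R v ↔ (δ u u).a n R (fun _ => false) := by
      intro v
      conv_lhs => rw [h1]
      rfl
    rw [h2 v1, h2 v2]
  · have : v1 = v2 := by
      funext k
      have := congrFun hv k
      revert this
      cases v1 k <;> cases v2 k <;> simp [huw, Ne.symm huw, eq_comm]
    rw [this]

theorem mkI_iff {W : Type} {δ : W → W → Dat L} (h : Coh δ) {n : ℕ} (R : L.Relations n) (u w : W)
    (v : Fin n → Bool) : mkI δ n R (fun k => pick u w (v k)) ↔ (δ u w).a n R v := by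
  constructor
  · rintro ⟨u', w', v', ht, hv'⟩
    by_cases hc : (∃ k, v' k = false) ∧ (∃ k, v' k = true)
    · obtain ⟨⟨k, hk⟩, ⟨k', hk'⟩⟩ := hc
      have h1 : u' = pick u w (v k) := by
        have := congrFun ht k
        simp only [hk, pick_false] at this
        exact this.symm
      have h2 : w' = pick u w (v k') := by
        have := congrFun ht k'
        simp only [hk', pick_true] at this
        exact this.symm
      let σ : Bool → Bool := fun b => cond b (v k') (v k)
      have hσ : δ u' w' = (δ u w).map σ := by
        rw [h1, h2]; exact h.map u w σ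
      rw [hσ] at hv'
      have hv2 : (δ u w).a n R (fun k => σ (v' k)) := hv'
      refine (h.same u w R _ _ ?_).1 hv2
      rw [ht]
      funext j
      rw [← pick_pick]
      have e1 : pick u w (σ false) = u' := h1.symm
      have e2 : pick u w (σ true) = w' := h2.symm
      rw [e1, e2]
    · -- v' is constant
      have hcst : ∃ β : Bool, v' = fun _ => β := by
        by_cases h1 : ∃ k, v' k = false
        · refine ⟨false, ?_⟩
          funext k
          by_contra hk
          exact hc ⟨h1, k, by simpa using hk⟩
        · refine ⟨true, ?_⟩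
          funext k
          by_contra hk
          exact h1 ⟨k, by simpa using hk⟩
      obtain ⟨β, rfl⟩ := hcst
      have h1 : ∀ v'', (δ (pick u' w' β) (pick u' w' β)).a n R v'' := by
        intro v''
        rw [h.diag]
        exact hv'
      rcases Nat.eq_zero_or_pos n with hn | hn
      · subst hn
        have h2 : ∀ x y : W, ∀ b c : Bool, ∀ v1 v2, (δ (pick x y b) (pick x y b)).a 0 R v1 ↔
            (δ (pick x y c) (pick x y c)).a 0 R v2 := by
          intro x y b c v1 v2
          rw [h.diag, h.diag]
          have : (fun k => (fun _ => b) (v1 k) : Fin 0 → Bool) =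
              (fun k => (fun _ => c) (v2 k) : Fin 0 → Bool) := Subsingleton.elim _ _
          change (δ x y).a 0 R (fun k => (fun _ => b) (v1 k)) ↔
            (δ x y).a 0 R (fun k => (fun _ => c) (v2 k))
          rw [this]
        have h3 : (δ u u).a 0 R v := by
          have := (h2 u (pick u' w' β) false true v v)
          simp only [pick_false, pick_true] at this
          exact this.2 (h1 v)
        have h4 := h.diag u w false
        rw [pick_false] at h4
        rw [h4] at h3
        have : v = fun k => (fun _ => false) (v k) := Subsingleton.elim _ _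
        rw [this]; exact h3
      · let k0 : Fin n := ⟨0, hn⟩
        have h2 : pick u' w' β = pick u w (v k0) := (congrFun ht k0).symm
        have h3 := h1 v
        rw [h2, h.diag] at h3
        have h4 : (δ u w).a n R (fun _ => v k0) := h3
        refine (h.same u w R _ _ ?_).1 h4
        rw [ht]
        funext j
        exact h2.symm
  · intro hv
    exact ⟨u, w, v, rfl, hv⟩

theorem mkd_mkI {W : Type} {δ : W → W → Dat L} (h : Coh δ) (u w : W) :
    mkd (mkI δ) (fun u => (δ u u).l false) u w = δ u w := by
  apply Dat.ext'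
  · exact (h.e u w).symm
  · intro n R v
    exact mkI_iff h R u w v
  · intro b c ψ
    simp only [mkd]
    rw [h.diag]
    rfl

end Pool.Agent.H565R2.CO
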